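import Mathlib

set_option autoImplicit false

namespace Pool.Agent.Lib.MP_f5651a_an

open Filter Topology

universe u

/-- Well-founded trees with countable branching whose edges carry real labels. -/
inductive Tree (A : Type u) : Type u
  | leaf : A → Tree A
  | node : (ℕ → Tree A) → (ℕ → ℝ) → Tree A

namespace Tree

variable {A : Type u}

/-- `IsChild s t`: `s` is a child of `t`. -/
def IsChild (s : Tree A) : Tree A → Prop
  | leaf _ => False
  | node f _ => ∃ n, f n = s

lemma wf : WellFounded (IsChild (A := A)) := by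
  constructor
  intro t
  induction t with
  | leaf a => exact ⟨_, fun s hs => hs.elim⟩
  | node f b ih =>
    refine ⟨_, fun s hs => ?_⟩
    obtain ⟨n, rfl⟩ := hs
    exact ih n

lemma asymm {s t : Tree A} (h : IsChild s t) : ¬ IsChild t s := wf.asymmetric _ _ h

open Classical in
/-- label of `s` as a child of `t` (zero if it is not a child). -/
noncomputable def label (s : Tree A) : Tree A → ℝ
  | leaf _ => 0
  | node f b => if h : ∃ n, f n = s then b (Nat.find h) else 0

lemma label_eq_zero {s t : Tree A} (h : ¬ IsChild s t) : label s t = 0 := by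
  cases t with
  | leaf a => rfl
  | node f b =>
    simp only [label]
    exact dif_neg h

lemma label_node (f : ℕ → Tree A) (g : Tree A → ℝ) (n : ℕ) :
    label (f n) (node f (fun k => g (f k))) = g (f n) := by
  classical
  have h : ∃ k, f k = f n := ⟨n, rfl⟩
  simp only [label]
  rw [dif_pos h]
  exact congrArg g (Nat.find_spec h)

/-- the symmetric matrix. -/
noncomputable def mat (s t : Tree A) : ℝ := label s t + label t s

lemma mat_symm (s t : Tree A) : mat s t = mat t s := by
  unfold mat; ring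

lemma exists_mat (T : ℕ → Tree A) (g : Tree A → ℝ) :
    ∃ s : Tree A, ∀ n, mat (T n) s = g (T n) := by
  refine ⟨node T (fun k => g (T k)), fun n => ?_⟩
  have h1 : IsChild (T n) (node T (fun k => g (T k))) := ⟨n, rfl⟩
  rw [mat, label_node, label_eq_zero (asymm h1), add_zero]

end Tree

variable {A : Type u}

/-- The symmetric bilinear form on finitely supported functions. -/
noncomputable def form (A : Type u) : (Tree A →₀ ℝ) →ₗ[ℝ] (Tree A →₀ ℝ) →ₗ[ℝ] ℝ :=
  Finsupp.linearCombination ℝ (fun s => Finsupp.linearCombination ℝ (fun t => Tree.mat s t))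

lemma form_apply (u v : Tree A →₀ ℝ) :
    form A u v = u.sum fun s a => v.sum fun t b => a * (b * Tree.mat s t) := by
  unfold form
  rw [Finsupp.linearCombination_apply, Finsupp.sum, LinearMap.sum_apply, Finsupp.sum]
  refine Finset.sum_congr rfl (fun s _ => ?_)
  rw [LinearMap.smul_apply, Finsupp.linearCombination_apply, Finsupp.sum, Finsupp.sum,
    Finset.smul_sum]
  refine Finset.sum_congr rfl (fun t _ => ?_)
  simp [smul_eq_mul]

lemma form_symm (u v : Tree A →₀ ℝ) : form A u v = form A v u := by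
  rw [form_apply, form_apply, Finsupp.sum_comm]
  refine Finsupp.sum_congr (fun s _ => Finsupp.sum_congr (fun t _ => ?_))
  rw [Tree.mat_symm]; ring

/-- Countable interpolation property. -/
lemma exists_form [Nonempty A] (u : ℕ → (Tree A →₀ ℝ)) (hu : LinearIndependent ℝ u) (c : ℕ → ℝ) :
    ∃ v, ∀ n, form A (u n) v = c n := by
  classical
  -- enumerate the union of supports
  have hcount : (⋃ n, ((u n).support : Set (Tree A))).Countable :=
    Set.countable_iUnion (fun n => (u n).support.countable_toSet)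
  obtain ⟨T, hT⟩ : ∃ T : ℕ → Tree A, (⋃ n, ((u n).support : Set (Tree A))) ⊆ Set.range T := by
    rcases Set.eq_empty_or_nonempty (⋃ n, ((u n).support : Set (Tree A))) with h | h
    · refine ⟨fun _ => Tree.leaf (Classical.arbitrary A), ?_⟩
      rw [h]; exact Set.empty_subset _
    · obtain ⟨T, hT⟩ := hcount.exists_eq_range h
      exact ⟨T, hT.le⟩
  -- a linear functional with prescribed values
  obtain ⟨l, hl⟩ : ∃ l : (Tree A →₀ ℝ) →ₗ[ℝ] ℝ, ∀ n, l (u n) = c n := by
    let b := Module.Basis.span hu
    obtain ⟨l, hl⟩ := LinearMap.exists_extend (b.constr ℝ c)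
    refine ⟨l, fun n => ?_⟩
    have h1 : (b.constr ℝ c) (b n) = c n := by rw [Module.Basis.constr_basis]
    rw [← hl] at h1
    rw [LinearMap.comp_apply] at h1
    rw [← h1]
    congr 1
    exact (congrArg Subtype.val (Module.Basis.span_apply hu n)).symm
  obtain ⟨s, hs⟩ := Tree.exists_mat T (fun t => l (Finsupp.single t 1))
  refine ⟨Finsupp.single s 1, fun n => ?_⟩
  rw [form_apply, ← hl n]
  conv_rhs => rw [← Finsupp.sum_single (u n)]
  rw [Finsupp.sum, Finsupp.sum, map_sum]
  refine Finset.sum_congr rfl (fun t ht => ?_)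
  rw [Finsupp.sum_single_index (by simp)]
  obtain ⟨k, rfl⟩ := hT (Set.mem_iUnion.2 ⟨n, ht⟩)
  rw [hs k]
  have : Finsupp.single (T k) ((u n) (T k)) = ((u n) (T k)) • Finsupp.single (T k) (1 : ℝ) := by
    rw [Finsupp.smul_single, smul_eq_mul, mul_one]
  rw [this, map_smul, smul_eq_mul, one_mul]

/-- A sequence spanning an infinite-dimensional space has a linearly independent subsequence. -/
lemma exists_subseq {V : Type*} [AddCommGroup V] [Module ℝ V] (x : ℕ → V)
    (hx : ¬ FiniteDimensional ℝ (Submodule.span ℝ (Set.range x))) :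
    ∃ φ : ℕ → ℕ, StrictMono φ ∧ LinearIndependent ℝ (x ∘ φ) := by
  classical
  obtain ⟨I, hI, hspan, hlin⟩ := exists_linearIndependent ℝ (Set.range x)
  have hIinf : I.Infinite := by
    intro hfin
    apply hx
    rw [← hspan]
    exact FiniteDimensional.span_of_finite ℝ hfin
  let J : Set ℕ := {n | x n ∈ I ∧ ∀ k < n, x k ≠ x n}
  have hsurj : x '' J = I := by
    apply Set.Subset.antisymm
    · rintro _ ⟨n, hn, rfl⟩; exact hn.1
    · intro v hv
      have h : ∃ n, x n = v := hI hv
      refine ⟨Nat.find h, ⟨?_, ?_⟩, Nat.find_spec h⟩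
      · rw [Nat.find_spec h]; exact hv
      · intro k hk hk'
        rw [Nat.find_spec h] at hk'
        exact Nat.find_min h hk hk'
  have hJinf : J.Infinite := by
    intro hfin
    exact hIinf (hsurj ▸ hfin.image x)
  have hinj : Set.InjOn x J := by
    intro a ha b hb hab
    rcases lt_trichotomy a b with h | h | h
    · exact absurd hab (hb.2 a h)
    · exact h
    · exact absurd hab.symm (ha.2 b h)
  refine ⟨Nat.nth (fun n => n ∈ J), Nat.nth_strictMono hJinf, ?_⟩
  have hmem : ∀ n, Nat.nth (fun n => n ∈ J) n ∈ J := fun n => Nat.nth_mem_of_infinite hJinf n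
  let g : ℕ → I := fun n => ⟨x (Nat.nth (fun n => n ∈ J) n), (hmem n).1⟩
  have hg : Function.Injective g := by
    intro a b hab
    have : x (Nat.nth (fun n => n ∈ J) a) = x (Nat.nth (fun n => n ∈ J) b) :=
      congrArg Subtype.val hab
    exact Nat.nth_injective hJinf (hinj (hmem a) (hmem b) this)
  exact hlin.comp g hg

/-- **Core construction.** If a real normed space `E` is linearly isomorphic with the space of finitely
supported functions on `Tree A`, then it carries a discontinuous quadratic functional `F` such that for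
every null sequence `x` some `y` satisfies: `|F (x n + y)|` does not tend to infinity. -/
theorem core {E : Type*} [NormedAddCommGroup E] [NormedSpace ℝ E] [Nonempty A]
    (hE : ¬ FiniteDimensional ℝ E) (e : E ≃ₗ[ℝ] (Tree A →₀ ℝ)) :
    ∃ F : E → ℝ, (∀ x₀ h₀ : E, ∃ a b c : ℝ, ∀ t : ℝ, F (x₀ + t • h₀) = a + b * t + c * t ^ 2) ∧
      ¬ Continuous F ∧
      ∀ x : ℕ → E, Tendsto x atTop (𝓝 0) → ∃ y : E, ¬ Tendsto (fun n => |F (x n + y)|) atTop atTop := by
  classical
  let B : E →ₗ[ℝ] E →ₗ[ℝ] ℝ := (form A).compl₁₂ (e : E →ₗ[ℝ] (Tree A →₀ ℝ)) (e : E →ₗ[ℝ] (Tree A →₀ ℝ))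
  have hB : ∀ x y, B x y = form A (e x) (e y) := fun x y => rfl
  have hBs : ∀ x y, B x y = B y x := fun x y => by rw [hB, hB, form_symm]
  have hadd : ∀ x y, B (x + y) (x + y) = B x x + 2 * B x y + B y y := by
    intro x y
    simp only [map_add, LinearMap.add_apply]
    rw [hBs y x]; ring
  have hint : ∀ (x : ℕ → E), LinearIndependent ℝ x → ∀ c : ℕ → ℝ, ∃ y, ∀ n, B (x n) y = c n := by
    intro x hx c
    obtain ⟨v, hv⟩ := exists_form (fun n => e (x n))
      (hx.map' (e : E →ₗ[ℝ] (Tree A →₀ ℝ)) (LinearEquiv.ker e)) c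
    exact ⟨e.symm v, fun n => by rw [hB, LinearEquiv.apply_symm_apply, hv]⟩
  refine ⟨fun x => B x x, ?_, ?_, ?_⟩
  · intro x₀ h₀
    refine ⟨B x₀ x₀, 2 * B x₀ h₀, B h₀ h₀, fun t => ?_⟩
    show B (x₀ + t • h₀) (x₀ + t • h₀) = _
    rw [hadd, map_smul, map_smul, map_smul, LinearMap.smul_apply]
    simp only [smul_eq_mul]
    ring
  · intro hcont
    -- a linearly independent null sequence
    obtain ⟨z, hz, hz0⟩ : ∃ z : ℕ → E, LinearIndependent ℝ z ∧ Tendsto z atTop (𝓝 0) := by
      obtain ⟨s, hs⟩ : ∃ s : ℕ → E, LinearIndependent ℝ s := by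
        have hinf : Cardinal.aleph0 ≤ Module.rank ℝ E := by
          rw [← not_lt, Module.rank_lt_aleph0_iff]
          exact hE
        obtain ⟨s, hs, hs2⟩ := le_rank_iff_exists_linearIndependent.1 hinf
        obtain ⟨f⟩ : Nonempty (ℕ ≃ s) := by
          rw [← Cardinal.lift_mk_eq', Cardinal.mk_nat, Cardinal.lift_aleph0, hs, Cardinal.lift_aleph0]
        exact ⟨fun n => (f n : E), hs2.comp f f.injective⟩
      refine ⟨fun n : ℕ => ((1 / ((n : ℝ) + 1)) * ‖s n‖⁻¹) • s n, ?_, ?_⟩
      · have hne : ∀ n : ℕ, (1 / ((n : ℝ) + 1)) * ‖s n‖⁻¹ ≠ 0 := by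
          intro n
          have h1 : s n ≠ 0 := hs.ne_zero n
          have h2 : (0 : ℝ) < (n : ℝ) + 1 := by positivity
          have h3 : 0 < ‖s n‖ := norm_pos_iff.2 h1
          positivity
        exact hs.units_smul (fun n => Units.mk0 _ (hne n))
      · rw [tendsto_zero_iff_norm_tendsto_zero]
        have : (fun n : ℕ => ‖((1 / ((n : ℝ) + 1)) * ‖s n‖⁻¹) • s n‖) = fun n : ℕ => 1 / ((n : ℝ) + 1) := by
          funext n
          have h1 : s n ≠ 0 := hs.ne_zero n
          have h3 : 0 < ‖s n‖ := norm_pos_iff.2 h1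
          rw [norm_smul, Real.norm_of_nonneg (by positivity), mul_assoc, inv_mul_cancel₀ h3.ne', mul_one]
        rw [this]
        exact tendsto_one_div_add_atTop_nhds_zero_nat
    obtain ⟨y, hy⟩ := hint z hz (fun n => 1)
    have h1 : Tendsto (fun n => B (z n + y) (z n + y) - B (z n) (z n) - B y y) atTop
        (𝓝 (B (0 + y) (0 + y) - B 0 0 - B y y)) := by
      refine Tendsto.sub (Tendsto.sub ?_ ?_) tendsto_const_nhds
      · exact (hcont.tendsto (0 + y)).comp (hz0.add_const y)
      · exact (hcont.tendsto 0).comp hz0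
    have h2 : (fun n => B (z n + y) (z n + y) - B (z n) (z n) - B y y) = fun _ => (2 : ℝ) := by
      funext n
      rw [hadd, hy n]; ring
    rw [h2] at h1
    have h3 := tendsto_nhds_unique h1 tendsto_const_nhds
    simp at h3
  · intro x hx
    by_cases hfin : FiniteDimensional ℝ (Submodule.span ℝ (Set.range x))
    · refine ⟨0, fun htend => ?_⟩
      let W := Submodule.span ℝ (Set.range x)
      let BW : W →ₗ[ℝ] W →ₗ[ℝ] ℝ := B.compl₁₂ W.subtype W.subtype
      have hc : Continuous (fun w : W => BW w w) := by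
        have h1 : Continuous (fun w : W => LinearMap.toContinuousLinearMap (BW w)) :=
          LinearMap.continuous_of_finiteDimensional
            ((LinearMap.toContinuousLinearMap : (W →ₗ[ℝ] ℝ) ≃ₗ[ℝ] W →L[ℝ] ℝ).toLinearMap.comp BW)
        exact h1.clm_apply continuous_id
      let xW : ℕ → W := fun n => ⟨x n, Submodule.subset_span ⟨n, rfl⟩⟩
      have hxW : Tendsto xW atTop (𝓝 0) := by
        rw [tendsto_subtype_rng]
        exact hx
      have h2 : Tendsto (fun n => |BW (xW n) (xW n)|) atTop (𝓝 |BW 0 0|) :=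
        ((hc.tendsto 0).comp hxW).abs
      have h3 : (fun n => |BW (xW n) (xW n)|) = fun n => |B (x n + 0) (x n + 0)| := by
        funext n
        rw [add_zero]
        rfl
      rw [h3] at h2
      exact not_tendsto_nhds_of_tendsto_atTop htend _ h2
    · obtain ⟨φ, hφ, hlin⟩ := exists_subseq x hfin
      obtain ⟨y, hy⟩ := hint (x ∘ φ) hlin (fun n => - B (x (φ n)) (x (φ n)) / 2)
      refine ⟨y, fun htend => ?_⟩
      have h1 : Tendsto (fun n => |B (x (φ n) + y) (x (φ n) + y)|) atTop atTop :=
        htend.comp hφ.tendsto_atTop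
      have h2 : (fun n => |B (x (φ n) + y) (x (φ n) + y)|) = fun _ => |B y y| := by
        funext n
        have := hy n
        simp only [Function.comp] at this
        rw [hadd, this]
        congr 1
        ring
      rw [h2] at h1
      exact not_tendsto_nhds_of_tendsto_atTop h1 _ tendsto_const_nhds

end Pool.Agent.Lib.MP_f5651a_an
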