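import Mathlib
import Pool.Agent.Lib.MP_f5651a_an.Core

set_option autoImplicit false

namespace Pool.Agent.Lib.MP_f5651a_an

open Filter Topology Cardinal

universe u

section nets

variable {E : Type u} [NormedAddCommGroup E] [NormedSpace ℝ E]

lemma exists_net (E : Type u) [NormedAddCommGroup E] :
    ∃ D : Set E, (∀ x ∈ D, ‖x‖ ≤ 1) ∧ (∀ x ∈ D, ∀ y ∈ D, x ≠ y → 1 / 2 ≤ ‖x - y‖) ∧
      ∀ x : E, ‖x‖ ≤ 1 → ∃ d ∈ D, ‖x - d‖ ≤ 1 / 2 := by
  obtain ⟨D, hD⟩ := zorn_subset {D : Set E | (∀ x ∈ D, ‖x‖ ≤ 1) ∧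
      (∀ x ∈ D, ∀ y ∈ D, x ≠ y → 1 / 2 ≤ ‖x - y‖)} (by
    intro c hc hchain
    refine ⟨⋃₀ c, ⟨?_, ?_⟩, fun s hs => Set.subset_sUnion_of_mem hs⟩
    · rintro x ⟨s, hs, hx⟩
      exact (hc hs).1 x hx
    · rintro x ⟨s, hs, hx⟩ y ⟨t, ht, hy⟩ hxy
      rcases hchain.total hs ht with h | h
      · exact (hc ht).2 x (h hx) y hy hxy
      · exact (hc hs).2 x hx y (h hy) hxy)
  refine ⟨D, hD.prop.1, hD.prop.2, fun x hx => ?_⟩
  by_contra hcon
  push Not at hcon
  have hxD : x ∉ D := by
    intro h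
    have := hcon x h
    rw [sub_self, norm_zero] at this
    linarith
  have : insert x D ∈ {D : Set E | (∀ x ∈ D, ‖x‖ ≤ 1) ∧
      (∀ x ∈ D, ∀ y ∈ D, x ≠ y → 1 / 2 ≤ ‖x - y‖)} := by
    refine ⟨?_, ?_⟩
    · rintro y (rfl | hy)
      · exact hx
      · exact hD.prop.1 y hy
    · rintro y (rfl | hy) z (rfl | hz) hyz
      · exact absurd rfl hyz
      · exact (hcon z hz).le
      · rw [norm_sub_rev]; exact (hcon y hy).le
      · exact hD.prop.2 y hy z hz hyz
  exact hxD (hD.le_of_ge this (Set.subset_insert x D) (Set.mem_insert x D))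

/-- The unit ball injects into sequences of digits from the net. -/
lemma mk_le_net (D : Set E) 
    (hD : ∀ x : E, ‖x‖ ≤ 1 → ∃ d ∈ D, ‖x - d‖ ≤ 1 / 2) : #E ≤ #(ℕ → D) := by
  classical
  choose d hd hd2 using hD
  -- residual map on the closed ball
  let r : {x : E // ‖x‖ ≤ 1} → {x : E // ‖x‖ ≤ 1} := fun x =>
    ⟨(2 : ℝ) • (x.1 - d x.1 x.2), by
      rw [norm_smul, Real.norm_of_nonneg (by norm_num)]
      have := hd2 x.1 x.2
      linarith⟩
  have hr : ∀ x, x.1 = d x.1 x.2 + (1 / 2 : ℝ) • (r x).1 := by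
    intro x
    simp only [r]
    rw [smul_smul]; norm_num
  let g : {x : E // ‖x‖ ≤ 1} → ℕ → D := fun x n => ⟨d (r^[n] x).1 (r^[n] x).2, hd _ _⟩
  have hg : Function.Injective g := by
    intro x y hxy
    have h1 : ∀ n, x.1 - y.1 = (1 / 2 : ℝ) ^ n • ((r^[n] x).1 - (r^[n] y).1) := by
      intro n
      induction n with
      | zero => simp
      | succ n ih =>
        rw [ih]
        have e1 := hr (r^[n] x)
        have e2 := hr (r^[n] y)
        have e3 : d (r^[n] x).1 (r^[n] x).2 = d (r^[n] y).1 (r^[n] y).2 := by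
          have := congrFun hxy n
          exact congrArg Subtype.val this
        rw [Function.iterate_succ_apply', Function.iterate_succ_apply', pow_succ, mul_smul,
          smul_sub (1 / 2 : ℝ)]
        congr 1
        rw [e1, e2, e3]
        abel
    have h2 : ∀ n : ℕ, ‖x.1 - y.1‖ ≤ (1 / 2 : ℝ) ^ n * 2 := by
      intro n
      rw [h1 n, norm_smul, norm_pow, Real.norm_of_nonneg (by norm_num : (0 : ℝ) ≤ 1 / 2)]
      have h3 : ‖(r^[n] x).1 - (r^[n] y).1‖ ≤ 2 := by
        have := norm_sub_le (r^[n] x).1 (r^[n] y).1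
        have a1 := (r^[n] x).2
        have a2 := (r^[n] y).2
        linarith
      exact mul_le_mul_of_nonneg_left h3 (by positivity)
    have h3 : Tendsto (fun n : ℕ => (1 / 2 : ℝ) ^ n * 2) atTop (𝓝 (0 * 2)) :=
      (tendsto_pow_atTop_nhds_zero_of_lt_one (by norm_num) (by norm_num)).mul_const 2
    have h4 : ‖x.1 - y.1‖ ≤ 0 := by
      have := ge_of_tendsto' h3 h2
      simpa using this
    have h5 : x.1 - y.1 = 0 := norm_le_zero_iff.1 h4
    exact Subtype.ext (sub_eq_zero.1 h5)
  let s : E → {x : E // ‖x‖ ≤ 1} := fun x => ⟨(1 / (1 + ‖x‖)) • x, by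
    have h : 0 < 1 + ‖x‖ := by positivity
    rw [norm_smul, Real.norm_of_nonneg (by positivity), one_div, inv_mul_le_iff₀ h]
    linarith⟩
  have hs : Function.Injective s := by
    intro x y hxy
    have h : (1 / (1 + ‖x‖)) • x = (1 / (1 + ‖y‖)) • y := congrArg Subtype.val hxy
    have hx : 0 < 1 + ‖x‖ := by positivity
    have hy : 0 < 1 + ‖y‖ := by positivity
    have hn := congrArg norm h
    rw [norm_smul, norm_smul, Real.norm_of_nonneg (by positivity),
      Real.norm_of_nonneg (by positivity)] at hn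
    have hxy' : ‖x‖ = ‖y‖ := by
      field_simp at hn
      linarith
    rw [hxy'] at h
    exact smul_right_injective E (one_div_ne_zero hy.ne') h
  exact Cardinal.mk_le_of_injective (hg.comp hs)

variable [CompleteSpace E]

lemma net_le_mk (D : Set E) (hD1 : ∀ x ∈ D, ‖x‖ ≤ 1)
    (hD2 : ∀ x ∈ D, ∀ y ∈ D, x ≠ y → 1 / 2 ≤ ‖x - y‖) : #(ℕ → D) ≤ #E := by
  classical
  have hgeo : Summable (fun i : ℕ => (1 / 16 : ℝ) ^ i) :=
    summable_geometric_of_lt_one (by norm_num) (by norm_num)
  have hsum : ∀ a : ℕ → D, Summable (fun i : ℕ => (1 / 16 : ℝ) ^ i • (a i : E)) := by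
    intro a
    refine Summable.of_norm_bounded hgeo (fun i => ?_)
    rw [norm_smul, norm_pow, Real.norm_of_nonneg (by norm_num : (0 : ℝ) ≤ 1 / 16)]
    exact mul_le_of_le_one_right (by positivity) (hD1 _ (a i).2)
  refine Cardinal.mk_le_of_injective (f := fun a : ℕ → D => ∑' i, (1 / 16 : ℝ) ^ i • (a i : E)) ?_
  intro a b hab
  by_contra hne
  have hex : ∃ i, a i ≠ b i := Function.ne_iff.1 hne
  let i := Nat.find hex
  have hi : a i ≠ b i := Nat.find_spec hex
  have hlt : ∀ k < i, a k = b k := fun k hk => by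
    by_contra h; exact Nat.find_min hex hk h
  let z : ℕ → E := fun k => (1 / 16 : ℝ) ^ k • ((a k : E) - b k)
  have hz : Summable z := by
    have := (hsum a).sub (hsum b)
    refine this.congr (fun k => ?_)
    simp only [z]; rw [smul_sub]
  have hz0 : ∑' k, z k = 0 := by
    have : ∑' k, z k = ∑' k, (1 / 16 : ℝ) ^ k • (a k : E) - ∑' k, (1 / 16 : ℝ) ^ k • (b k : E) := by
      rw [← (hsum a).tsum_sub (hsum b)]
      refine tsum_congr (fun k => ?_)
      simp only [z]; rw [smul_sub]
    rw [this]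
    exact sub_eq_zero.2 hab
  have hsplit := hz.sum_add_tsum_nat_add (i + 1)
  rw [hz0, Finset.sum_range_succ] at hsplit
  have hzero : ∑ k ∈ Finset.range i, z k = 0 := by
    refine Finset.sum_eq_zero (fun k hk => ?_)
    simp only [z]
    rw [hlt k (Finset.mem_range.1 hk), sub_self, smul_zero]
  rw [hzero, zero_add] at hsplit
  have hbound : ∀ k, ‖z (k + (i + 1))‖ ≤ (2 * (1 / 16 : ℝ) ^ (i + 1)) * (1 / 16 : ℝ) ^ k := by
    intro k
    simp only [z]
    rw [norm_smul, norm_pow, Real.norm_of_nonneg (by norm_num : (0 : ℝ) ≤ 1 / 16)]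
    have h1 : ‖(a (k + (i + 1)) : E) - b (k + (i + 1))‖ ≤ 2 := by
      have := norm_sub_le (a (k + (i + 1)) : E) (b (k + (i + 1)))
      have a1 := hD1 _ (a (k + (i + 1))).2
      have a2 := hD1 _ (b (k + (i + 1))).2
      linarith
    rw [pow_add]
    have h2 : (0 : ℝ) ≤ (1 / 16 : ℝ) ^ k * (1 / 16 : ℝ) ^ (i + 1) := by positivity
    nlinarith
  have htail : ‖∑' k, z (k + (i + 1))‖ ≤ (2 * (1 / 16 : ℝ) ^ (i + 1)) * (1 - 1 / 16)⁻¹ := by
    refine tsum_of_norm_bounded ?_ hbound
    exact (hasSum_geometric_of_lt_one (by norm_num) (by norm_num)).mul_left _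
  have hzi : ‖z i‖ = ‖∑' k, z (k + (i + 1))‖ := by
    have : z i = - ∑' k, z (k + (i + 1)) := eq_neg_of_add_eq_zero_left hsplit
    rw [this, norm_neg]
  have hlow : (1 / 16 : ℝ) ^ i * (1 / 2) ≤ ‖z i‖ := by
    simp only [z]
    rw [norm_smul, norm_pow, Real.norm_of_nonneg (by norm_num : (0 : ℝ) ≤ 1 / 16)]
    refine mul_le_mul_of_nonneg_left ?_ (by positivity)
    refine hD2 _ (a i).2 _ (b i).2 (fun h => hi (Subtype.ext h))
  rw [hzi] at hlow
  have := hlow.trans htail
  rw [pow_succ] at this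
  have hp : (0 : ℝ) < (1 / 16 : ℝ) ^ i := by positivity
  norm_num at this
  nlinarith

lemma mk_seq_le (E : Type u) [NormedAddCommGroup E] [NormedSpace ℝ E] [CompleteSpace E] :
    #(ℕ → E) ≤ #E := by
  obtain ⟨D, h1, h2, h3⟩ := exists_net E
  have hle : #E ≤ #(ℕ → D) := mk_le_net D h3
  have hge : #(ℕ → D) ≤ #E := net_le_mk D h1 h2
  calc #(ℕ → E) ≤ #(ℕ → (ℕ → D)) := by
        rw [Cardinal.mk_pi, Cardinal.mk_pi, Cardinal.prod_const, Cardinal.prod_const]
        simp only [Cardinal.mk_nat]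
        exact Cardinal.power_le_power_right (by simpa using hle)
    _ = #(ℕ → D) := by
        rw [Cardinal.mk_congr (Equiv.curry ℕ ℕ D).symm]
        exact Cardinal.mk_congr (Equiv.arrowCongr (Nat.pairEquiv) (Equiv.refl D))
    _ ≤ #E := hge

end nets

section rank

variable {E : Type u} [NormedAddCommGroup E] [NormedSpace ℝ E]

/-- vanishing of all power sums forces vanishing coefficients -/
lemma coeff_eq_zero {s : Finset ℝ} {a : ℝ → ℝ} (h : ∀ n : ℕ, ∑ t ∈ s, a t * t ^ n = 0) :
    ∀ t ∈ s, a t = 0 := by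
  classical
  have hP : ∀ P : Polynomial ℝ, ∑ t ∈ s, a t * P.eval t = 0 := by
    intro P
    simp_rw [Polynomial.eval_eq_sum_range, Finset.mul_sum]
    rw [Finset.sum_comm]
    refine Finset.sum_eq_zero (fun n _ => ?_)
    have : ∑ t ∈ s, a t * (P.coeff n * t ^ n) = P.coeff n * ∑ t ∈ s, a t * t ^ n := by
      rw [Finset.mul_sum]
      exact Finset.sum_congr rfl (fun t _ => by ring)
    rw [this, h n, mul_zero]
  intro t ht
  have h1 := hP (∏ u ∈ s.erase t, (Polynomial.X - Polynomial.C u))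
  rw [Finset.sum_eq_single t] at h1
  · rw [Polynomial.eval_prod] at h1
    rcases mul_eq_zero.1 h1 with h2 | h2
    · exact h2
    · exfalso
      rw [Finset.prod_eq_zero_iff] at h2
      obtain ⟨u, hu, hu2⟩ := h2
      simp only [Polynomial.eval_sub, Polynomial.eval_X, Polynomial.eval_C] at hu2
      exact (Finset.ne_of_mem_erase hu) (by linarith)
  · intro u hu hut
    rw [Polynomial.eval_prod]
    rw [Finset.prod_eq_zero (Finset.mem_erase.2 ⟨hut, hu⟩) (by simp), mul_zero]
  · intro h; exact absurd ht h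

variable [CompleteSpace E]

lemma continuum_le_rank (hE : ¬ FiniteDimensional ℝ E) :
    (continuum : Cardinal.{u}) ≤ Module.rank ℝ E := by
  classical
  obtain ⟨x, hx⟩ : ∃ x : ℕ → E, LinearIndependent ℝ x := by
    have hinf : Cardinal.aleph0 ≤ Module.rank ℝ E := by
      rw [← not_lt, Module.rank_lt_aleph0_iff]
      exact hE
    obtain ⟨s, hs, hs2⟩ := le_rank_iff_exists_linearIndependent.1 hinf
    obtain ⟨f⟩ : Nonempty (ℕ ≃ s) := by
      rw [← Cardinal.lift_mk_eq', Cardinal.mk_nat, Cardinal.lift_aleph0, hs, Cardinal.lift_aleph0]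
    exact ⟨fun n => (f n : E), hs2.comp f f.injective⟩
  let S : ℕ → Submodule ℝ E := fun n => Submodule.span ℝ (x '' Set.Iio n)
  have hSfin : ∀ n, FiniteDimensional ℝ (S n) := fun n =>
    FiniteDimensional.span_of_finite ℝ ((Set.finite_Iio n).image x)
  have hSne : ∀ n, ((S n : Submodule ℝ E) : Set E).Nonempty := fun n => ⟨0, (S n).zero_mem⟩
  have hScl : ∀ n, IsClosed ((S n : Submodule ℝ E) : Set E) := fun n => by
    have := hSfin n
    exact (S n).closed_of_finiteDimensional
  have hxS : ∀ n, x n ∉ S n := by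
    intro n
    exact hx.notMem_span_image (by simp)
  obtain ⟨d, hd⟩ : ∃ d : ℕ → ℝ, ∀ n, d n = Metric.infDist (x n) (S n : Set E) := ⟨_, fun n => rfl⟩
  have hdpos : ∀ n, 0 < d n := by
    intro n
    rw [hd]
    exact ((hScl n).notMem_iff_infDist_pos (hSne n)).1 (hxS n)
  have hdle : ∀ n, ∀ w ∈ S n, d n ≤ ‖x n - w‖ := by
    intro n w hw
    rw [hd, ← dist_eq_norm]
    exact Metric.infDist_le_dist_of_mem hw
  -- fast decreasing coefficients
  let c : ℕ → ℝ := fun n => Nat.rec (1 : ℝ)
    (fun k ck => ck * min 1 (d k) * (1 / 2) ^ (k + 1) / (1 + ‖x (k + 1)‖)) n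
  have hc1 : ∀ k, c (k + 1) = c k * min 1 (d k) * (1 / 2) ^ (k + 1) / (1 + ‖x (k + 1)‖) :=
    fun k => rfl
  have hmin : ∀ k, 0 < min 1 (d k) := fun k => lt_min one_pos (hdpos k)
  have hcpos : ∀ k, 0 < c k := by
    intro k
    induction k with
    | zero => exact one_pos
    | succ k ih => 
      rw [hc1]
      have := hmin k
      positivity
  have hM : Antitone (fun k => c k * min 1 (d k)) := by
    refine antitone_nat_of_succ_le (fun k => ?_)
    have h1 : c (k + 1) * min 1 (d (k + 1)) ≤ c (k + 1) :=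
      mul_le_of_le_one_right (hcpos (k + 1)).le (min_le_left _ _)
    refine h1.trans ?_
    rw [hc1, div_le_iff₀ (by positivity)]
    have h2 : (1 / 2 : ℝ) ^ (k + 1) ≤ 1 := pow_le_one₀ (by norm_num) (by norm_num)
    have h3 : 0 < c k * min 1 (d k) := mul_pos (hcpos k) (hmin k)
    have h4 : 0 ≤ ‖x (k + 1)‖ := norm_nonneg _
    nlinarith
  have hcx : ∀ n k, n < k → c k * ‖x k‖ ≤ (1 / 2) ^ k * (c n * min 1 (d n)) := by
    intro n k hnk
    obtain ⟨k, rfl⟩ : ∃ k', k = k' + 1 := ⟨k - 1, by omega⟩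
    have h1 : c k * min 1 (d k) ≤ c n * min 1 (d n) := hM (by omega)
    have h2 : c (k + 1) * ‖x (k + 1)‖ ≤ (1 / 2) ^ (k + 1) * (c k * min 1 (d k)) := by
      rw [hc1, div_mul_eq_mul_div, div_le_iff₀ (by positivity)]
      have h3 : 0 < c k * min 1 (d k) * (1 / 2) ^ (k + 1) := by
        have := hmin k
        have := hcpos k
        positivity
      have h4 : 0 ≤ ‖x (k + 1)‖ := norm_nonneg _
      nlinarith
    refine h2.trans ?_
    exact mul_le_mul_of_nonneg_left h1 (by positivity)
  obtain ⟨C, hC⟩ : ∃ C, ∀ k, c k * ‖x k‖ ≤ (1 / 2) ^ k * C := by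
    refine ⟨max (c 0 * ‖x 0‖) (c 0 * min 1 (d 0)), fun k => ?_⟩
    rcases Nat.eq_zero_or_pos k with rfl | hk
    · rw [pow_zero, one_mul]; exact le_max_left _ _
    · refine (hcx 0 k hk).trans ?_
      exact mul_le_mul_of_nonneg_left (le_max_right _ _) (by positivity)
  have hgeo : Summable (fun k : ℕ => (1 / 2 : ℝ) ^ k * C) :=
    (summable_geometric_of_lt_one (by norm_num) (by norm_num)).mul_right C
  have hsum : ∀ γ : ℕ → ℝ, ∀ B, (∀ k, |γ k| ≤ B) → Summable (fun k => (γ k * c k) • x k) := by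
    intro γ B hγ
    refine Summable.of_norm_bounded (hgeo.mul_left B) (fun k => ?_)
    rw [norm_smul, Real.norm_eq_abs, abs_mul, abs_of_pos (hcpos k), mul_assoc]
    have h1 := hC k
    have h2 := hγ k
    have h3 : 0 ≤ |γ k| := abs_nonneg _
    have h4 : 0 ≤ c k * ‖x k‖ := mul_nonneg (hcpos k).le (norm_nonneg _)
    exact mul_le_mul h2 h1 h4 (h3.trans h2)
  -- the vectors
  let v : Set.Ioo (0 : ℝ) 1 → E := fun t => ∑' k, ((t : ℝ) ^ k * c k) • x k
  have hvsum : ∀ t : Set.Ioo (0 : ℝ) 1, Summable (fun k => ((t : ℝ) ^ k * c k) • x k) := by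
    intro t
    refine hsum _ 1 (fun k => ?_)
    rw [abs_pow, abs_of_pos t.2.1]
    exact pow_le_one₀ t.2.1.le t.2.2.le
  have hv : LinearIndependent ℝ v := by
    rw [linearIndependent_iff']
    intro s a has
    let β : ℕ → ℝ := fun n => ∑ t ∈ s, a t * (t : ℝ) ^ n
    have hβ0 : ∑' k, (β k * c k) • x k = 0 := by
      rw [← has]
      have : ∀ t ∈ s, a t • v t = ∑' k, (a t * ((t : ℝ) ^ k * c k)) • x k := by
        intro t _
        simp only [v]
        rw [← (hvsum t).tsum_const_smul]
        exact tsum_congr (fun k => by rw [smul_smul])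
      rw [Finset.sum_congr rfl this, ← Summable.tsum_finsetSum]
      · refine tsum_congr (fun k => ?_)
        rw [← Finset.sum_smul]
        congr 1
        simp only [β]
        rw [Finset.sum_mul]
        exact Finset.sum_congr rfl (fun t _ => by ring)
      · intro t _
        have := (hvsum t).const_smul (a t)
        refine this.congr (fun k => ?_)
        rw [smul_smul]
    have hβlim : Tendsto β atTop (𝓝 0) := by
      have : Tendsto β atTop (𝓝 (∑ t ∈ s, a t * 0)) := by
        refine tendsto_finsetSum _ (fun t _ => ?_)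
        exact (tendsto_pow_atTop_nhds_zero_of_lt_one t.2.1.le t.2.2).const_mul _
      simpa using this
    obtain ⟨B0, hB0⟩ : ∃ B0, ∀ k, |β k| ≤ B0 := by
      refine ⟨∑ t ∈ s, |a t|, fun k => ?_⟩
      refine (Finset.abs_sum_le_sum_abs _ _).trans (Finset.sum_le_sum (fun t _ => ?_))
      rw [abs_mul, abs_pow, abs_of_pos t.2.1]
      exact mul_le_of_le_one_right (abs_nonneg _) (pow_le_one₀ t.2.1.le t.2.2.le)
    have hβsum := hsum β B0 hB0
    have hstep : ∀ n B, 0 ≤ B → (∀ k, n < k → |β k| ≤ B) → |β n| ≤ B := by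
      intro n B hB hk
      have hsplit := hβsum.sum_add_tsum_nat_add (n + 1)
      rw [hβ0, Finset.sum_range_succ] at hsplit
      have htail : ‖∑' k, (β (k + (n + 1)) * c (k + (n + 1))) • x (k + (n + 1))‖ ≤
          (B * (c n * min 1 (d n)) * (1 / 2) ^ (n + 1)) * 2 := by
        refine tsum_of_norm_bounded (hasSum_geometric_two.mul_left _) (fun k => ?_)
        rw [norm_smul, Real.norm_eq_abs, abs_mul, abs_of_pos (hcpos (k + (n + 1))), mul_assoc]
        have h1 := hcx n (k + (n + 1)) (by omega)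
        have h2 := hk (k + (n + 1)) (by omega)
        have h4 : 0 ≤ c (k + (n + 1)) * ‖x (k + (n + 1))‖ :=
          mul_nonneg (hcpos (k + (n + 1))).le (norm_nonneg _)
        calc |β (k + (n + 1))| * (c (k + (n + 1)) * ‖x (k + (n + 1))‖)
            ≤ B * ((1 / 2) ^ (k + (n + 1)) * (c n * min 1 (d n))) := mul_le_mul h2 h1 h4 hB
          _ = _ := by rw [pow_add]; ring
      have hlow : |β n| * (c n * d n) ≤
          ‖∑' k, (β (k + (n + 1)) * c (k + (n + 1))) • x (k + (n + 1))‖ := by
        by_cases hβn : β n = 0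
        · rw [hβn, abs_zero, zero_mul]; exact norm_nonneg _
        · have hw : ∑ k ∈ Finset.range n, (β k * c k) • x k ∈ S n := by
            refine Submodule.sum_mem _ (fun k hk => Submodule.smul_mem _ _ ?_)
            exact Submodule.subset_span ⟨k, Finset.mem_range.1 hk, rfl⟩
          have hbc : β n * c n ≠ 0 := mul_ne_zero hβn (hcpos n).ne'
          have h1 := hdle n (-(β n * c n)⁻¹ • ∑ k ∈ Finset.range n, (β k * c k) • x k)
            (Submodule.smul_mem _ _ hw)
          have h2 : ∑' k, (β (k + (n + 1)) * c (k + (n + 1))) • x (k + (n + 1)) =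
              -((β n * c n) • (x n - -(β n * c n)⁻¹ • ∑ k ∈ Finset.range n, (β k * c k) • x k)) := by
            rw [smul_sub, smul_smul, mul_neg, mul_inv_cancel₀ hbc, neg_smul, one_smul]
            rw [eq_neg_iff_add_eq_zero, add_comm]
            rw [← hsplit]; abel
          rw [h2, norm_neg, norm_smul, Real.norm_eq_abs, abs_mul, abs_of_pos (hcpos n), mul_assoc]
          refine mul_le_mul_of_nonneg_left ?_ (abs_nonneg _)
          exact mul_le_mul_of_nonneg_left h1 (hcpos n).le
      have hfin := hlow.trans htail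
      have h5 : c n * min 1 (d n) ≤ c n * d n :=
        mul_le_mul_of_nonneg_left (min_le_right _ _) (hcpos n).le
      have h6 : 0 < c n * d n := mul_pos (hcpos n) (hdpos n)
      have h7 : (1 / 2 : ℝ) ^ (n + 1) * 2 ≤ 1 := by
        rw [pow_succ]
        have : (1 / 2 : ℝ) ^ n ≤ 1 := pow_le_one₀ (by norm_num) (by norm_num)
        linarith
      have h8 : (B * (c n * min 1 (d n)) * (1 / 2) ^ (n + 1)) * 2 ≤ B * (c n * d n) := by
        have h9 : 0 ≤ c n * min 1 (d n) := mul_nonneg (hcpos n).le (hmin n).le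
        calc (B * (c n * min 1 (d n)) * (1 / 2) ^ (n + 1)) * 2
            = (B * (c n * min 1 (d n))) * ((1 / 2) ^ (n + 1) * 2) := by ring
          _ ≤ (B * (c n * min 1 (d n))) * 1 :=
              mul_le_mul_of_nonneg_left h7 (mul_nonneg hB h9)
          _ ≤ B * (c n * d n) := by rw [mul_one]; exact mul_le_mul_of_nonneg_left h5 hB
      exact le_of_mul_le_mul_right (hfin.trans h8) h6
    have hall : ∀ N B, 0 ≤ B → (∀ k, N < k → |β k| ≤ B) → ∀ k, |β k| ≤ B := by
      intro N B hB
      induction N with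
      | zero =>
        intro h k
        rcases Nat.eq_zero_or_pos k with rfl | hk
        · exact hstep 0 B hB h
        · exact h k hk
      | succ N ih =>
        intro h
        refine ih (fun k hk => ?_)
        rcases Nat.lt_or_ge (N + 1) k with h' | h'
        · exact h k h'
        · have : k = N + 1 := by omega
          subst this
          exact hstep (N + 1) B hB h
    have hzero : ∀ k, β k = 0 := by
      intro k
      by_contra hne
      have hpos : 0 < |β k| := abs_pos.2 hne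
      have h1 : ∀ᶠ n in atTop, |β n| < |β k| / 2 := by
        have := hβlim.abs
        rw [abs_zero] at this
        exact this.eventually (gt_mem_nhds (by linarith))
      obtain ⟨N, hN⟩ := h1.exists_forall_of_atTop
      have := hall N (|β k| / 2) (by linarith) (fun n hn => (hN n hn.le).le) k
      linarith
    -- conclude
    have hinj : Set.InjOn (fun t : Set.Ioo (0 : ℝ) 1 => (t : ℝ)) s := fun a _ b _ h => Subtype.ext h
    let a' : ℝ → ℝ := fun r => if h : r ∈ Set.Ioo (0 : ℝ) 1 then a ⟨r, h⟩ else 0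
    have ha' : ∀ t : Set.Ioo (0 : ℝ) 1, a' (t : ℝ) = a t := fun t => dif_pos t.2
    have h3 := coeff_eq_zero (s := s.image (fun t : Set.Ioo (0 : ℝ) 1 => (t : ℝ))) (a := a') (by
      intro n
      rw [Finset.sum_image hinj]
      refine Eq.trans ?_ (hzero n)
      exact Finset.sum_congr rfl (fun t _ => by rw [ha']))
    intro t ht
    rw [← ha' t]
    exact h3 _ (Finset.mem_image_of_mem _ ht)
  have h1 := hv.cardinal_lift_le_rank
  rw [Cardinal.mk_Ioo_real one_pos] at h1
  simpa using h1

/-- In an infinite-dimensional Banach space the algebraic dimension equals the cardinality. -/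
lemma rank_eq_mk (hE : ¬ FiniteDimensional ℝ E) : Module.rank ℝ E = #E := by
  apply le_antisymm (rank_le_card ℝ E)
  let b := Module.Basis.ofVectorSpace ℝ E
  have hb : #(Module.Basis.ofVectorSpaceIndex ℝ E) = Module.rank ℝ E := b.mk_eq_rank''
  have hc := continuum_le_rank hE
  have : Infinite (Module.Basis.ofVectorSpaceIndex ℝ E) := by
    rw [Cardinal.infinite_iff, hb]
    exact Cardinal.aleph0_le_continuum.trans hc
  rw [Cardinal.mk_congr b.repr.toEquiv, Cardinal.mk_finsupp_lift_of_infinite, hb]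
  simp only [Cardinal.lift_uzero, Cardinal.mk_real, Cardinal.lift_continuum]
  exact max_le le_rfl hc

end rank

section embed

/-- recursion into a type with enough injections -/
noncomputable def Tree.enc {A : Type u} {X : Type u} (ι₁ : A → X) (ι₂ : (ℕ → X) × (ℕ → ℝ) → X) : Tree A → X
  | .leaf a => ι₁ a
  | .node f b => ι₂ (fun n => Tree.enc ι₁ ι₂ (f n), b)

lemma Tree.enc_injective {A : Type u} {X : Type u} (ι : A ⊕ ((ℕ → X) × (ℕ → ℝ)) → X)
    (hι : Function.Injective ι) :
    Function.Injective (Tree.enc (fun a => ι (Sum.inl a)) (fun p => ι (Sum.inr p)) : Tree A → X) := by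
  intro s
  induction s with
  | leaf a =>
    intro t h
    cases t with
    | leaf a' =>
      simp only [Tree.enc] at h
      have := hι h
      simp at this
      rw [this]
    | node f' b' =>
      simp only [Tree.enc] at h
      have := hι h
      simp at this
  | node f b ih =>
    intro t h
    cases t with
    | leaf a' =>
      simp only [Tree.enc] at h
      have := hι h
      simp at this
    | node f' b' =>
      simp only [Tree.enc] at h
      have h1 := hι h
      rw [Sum.inr.injEq, Prod.mk.injEq] at h1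
      obtain ⟨h2, h3⟩ := h1
      have h4 : f = f' := by
        funext n
        exact ih n (congrFun h2 n)
      rw [h4, h3]

lemma mk_tree (E : Type u) [NormedAddCommGroup E] [NormedSpace ℝ E] [CompleteSpace E]
    (hE : ¬ FiniteDimensional ℝ E) : #(Tree E) = #E := by
  have hc : (continuum : Cardinal.{u}) ≤ #E := (continuum_le_rank hE).trans (rank_le_card ℝ E)
  have hinf : ℵ₀ ≤ #E := Cardinal.aleph0_le_continuum.trans hc
  apply le_antisymm
  · have h1 : #(E ⊕ ((ℕ → E) × (ℕ → ℝ))) ≤ #E := by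
      rw [Cardinal.mk_sum, Cardinal.mk_prod]
      simp only [Cardinal.lift_id, Cardinal.lift_uzero]
      have h2 : Cardinal.lift.{u} #(ℕ → ℝ) = (continuum : Cardinal.{u}) := by
        have h0 : #(ℕ → ℝ) = continuum := by
          rw [Cardinal.mk_pi, Cardinal.prod_const]
          simp only [Cardinal.lift_id, Cardinal.mk_real, Cardinal.mk_nat,
            Cardinal.continuum_power_aleph0]
        rw [h0, Cardinal.lift_continuum]
      rw [h2]
      have h3 : #(ℕ → E) * continuum ≤ #E * #E := mul_le_mul' (mk_seq_le E) hc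
      calc #E + #(ℕ → E) * continuum ≤ #E + #E * #E := add_le_add le_rfl h3
        _ = #E := by rw [Cardinal.mul_eq_self hinf, Cardinal.add_eq_self hinf]
    obtain ⟨ι⟩ := h1
    exact Cardinal.mk_le_of_injective (Tree.enc_injective ι ι.injective)
  · exact Cardinal.mk_le_of_injective (f := Tree.leaf) (fun a b h => by simpa using h)

lemma exists_equiv (E : Type u) [NormedAddCommGroup E] [NormedSpace ℝ E] [CompleteSpace E]
    (hE : ¬ FiniteDimensional ℝ E) : Nonempty (E ≃ₗ[ℝ] (Tree E →₀ ℝ)) := by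
  refine nonempty_linearEquiv_of_rank_eq ?_
  have h := rank_finsupp_self ℝ (ι := Tree E)
  rw [Cardinal.lift_uzero] at h
  rw [h, rank_eq_mk hE, mk_tree E hE]

end embed

end Pool.Agent.Lib.MP_f5651a_an
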