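import Pool.Agent.Lib.MP_f5651a_an.Line

set_option autoImplicit false

namespace Pool.Agent.Lib.MP_f5651a_an

open Polynomial Filter Topology

variable {E : Type*} [NormedAddCommGroup E] [NormedSpace ℝ E]

theorem eval_bound {m : ℕ} (p : ℝ[X]) (hp : p.natDegree ≤ m) {K R t : ℝ} (hK : 0 ≤ K)
    (hc : ∀ k, |p.coeff k| ≤ K) (hR : 1 ≤ R) (ht : |t| ≤ R) :
    |p.eval t| ≤ (m + 1) * (K * R ^ m) := by
  rw [Polynomial.eval_eq_sum_range' (Nat.lt_succ_of_le hp)]
  calc |∑ k ∈ Finset.range (m + 1), p.coeff k * t ^ k|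
      ≤ ∑ k ∈ Finset.range (m + 1), |p.coeff k * t ^ k| := Finset.abs_sum_le_sum_abs _ _
    _ ≤ ∑ k ∈ Finset.range (m + 1), K * R ^ m := by
        refine Finset.sum_le_sum fun k hk => ?_
        rw [Finset.mem_range] at hk
        rw [abs_mul, abs_pow]
        refine mul_le_mul (hc k) ?_ (by positivity) hK
        calc |t| ^ k ≤ R ^ k := pow_le_pow_left₀ (abs_nonneg _) ht k
          _ ≤ R ^ m := pow_le_pow_right₀ hR (by omega)
    _ = (m + 1) * (K * R ^ m) := by
        rw [Finset.sum_const, Finset.card_range, nsmul_eq_mul]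
        push_cast
        ring

/-- a functional of degree `m` which is bounded on bounded sets is continuous -/
theorem continuous_of_bounded {m : ℕ} {F : E → ℝ} (hF : IsFunctionalOfDegree m F)
    (hb : ∀ R : ℝ, ∃ M : ℝ, ∀ x : E, ‖x‖ ≤ R → |F x| ≤ M) : Continuous F := by
  rw [isFunctional_iff] at hF
  obtain ⟨K, hK, hKp⟩ := coeff_bound m
  rw [Metric.continuous_iff]
  intro x ε hε
  obtain ⟨M, hM⟩ := hb (‖x‖ + m)
  have hM0 : 0 ≤ M := (abs_nonneg _).trans (hM x (by simp))
  -- the Lipschitz type constant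
  set A : ℝ := (m + 1) * (K * M) + 1 with hA
  have hA0 : 0 < A := by positivity
  have hline : ∀ (h : E) (t : ℚ), ‖h‖ ≤ 1 → 0 ≤ t → t ≤ 1 →
      |F (x + (t : ℝ) • h) - F x| ≤ A * t := by
    intro h t hh ht0 ht1
    obtain ⟨p, hp, hpt⟩ := hF x h
    have hpj : ∀ j ≤ m, |p.eval (j : ℝ)| ≤ M := by
      intro j hj
      have h1 := hpt (j : ℚ)
      rw [Rat.cast_natCast] at h1
      rw [← h1]
      apply hM
      refine (norm_add_le _ _).trans ?_
      rw [norm_smul, Real.norm_natCast]
      have : (j : ℝ) * ‖h‖ ≤ m * 1 := by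
        apply mul_le_mul _ hh (norm_nonneg _) (Nat.cast_nonneg _)
        exact_mod_cast hj
      linarith
    have hc := hKp p M hp hpj
    have h0 := hpt 0
    rw [Rat.cast_zero, zero_smul, add_zero] at h0
    rw [hpt t, h0]
    have ht0' : (0 : ℝ) ≤ t := by exact_mod_cast ht0
    have ht1' : (t : ℝ) ≤ 1 := by exact_mod_cast ht1
    have h2 : p.eval (t : ℝ) - p.eval 0 =
        ∑ k ∈ Finset.range (m + 1), p.coeff k * ((t : ℝ) ^ k - 0 ^ k) := by
      rw [Polynomial.eval_eq_sum_range' (Nat.lt_succ_of_le hp),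
        Polynomial.eval_eq_sum_range' (Nat.lt_succ_of_le hp), ← Finset.sum_sub_distrib]
      refine Finset.sum_congr rfl fun k _ => ?_
      ring
    rw [h2]
    calc |∑ k ∈ Finset.range (m + 1), p.coeff k * ((t : ℝ) ^ k - 0 ^ k)|
        ≤ ∑ k ∈ Finset.range (m + 1), |p.coeff k * ((t : ℝ) ^ k - 0 ^ k)| :=
          Finset.abs_sum_le_sum_abs _ _
      _ ≤ ∑ k ∈ Finset.range (m + 1), (K * M) * t := by
          refine Finset.sum_le_sum fun k _ => ?_
          rw [abs_mul]
          refine mul_le_mul (hc k) ?_ (abs_nonneg _) (by positivity)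
          rcases Nat.eq_zero_or_pos k with rfl | hk
          · simpa using ht0'
          · rw [zero_pow (by omega), sub_zero, abs_of_nonneg (by positivity)]
            exact pow_le_of_le_one ht0' ht1' (by omega)
      _ = (m + 1) * (K * M) * t := by
          rw [Finset.sum_const, Finset.card_range, nsmul_eq_mul]
          push_cast
          ring
      _ ≤ A * t := by
          apply mul_le_mul_of_nonneg_right _ ht0'
          rw [hA]; linarith
  refine ⟨min (1 / 2) (ε / (2 * A + 1)), by positivity, ?_⟩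
  intro y hy
  by_cases hyx : y = x
  · subst hyx; rw [dist_self]; exact hε
  have hd : 0 < ‖y - x‖ := norm_pos_iff.mpr (sub_ne_zero.mpr hyx)
  rw [dist_eq_norm] at hy
  have hy1 : ‖y - x‖ < 1 / 2 := lt_of_lt_of_le hy (min_le_left _ _)
  have hy2 : ‖y - x‖ < ε / (2 * A + 1) := lt_of_lt_of_le hy (min_le_right _ _)
  obtain ⟨t, ht1, ht2⟩ := exists_rat_btwn (show ‖y - x‖ < 2 * ‖y - x‖ by linarith)
  have ht0 : (0 : ℝ) < t := lt_trans hd ht1
  have h3 := hline ((t : ℝ)⁻¹ • (y - x)) t ?_ ?_ ?_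
  · rw [smul_smul, mul_inv_cancel₀ ht0.ne', one_smul, add_sub_cancel] at h3
    rw [Real.dist_eq]
    calc |F y - F x| ≤ A * t := h3
      _ ≤ A * (2 * ‖y - x‖) := by
          exact mul_le_mul_of_nonneg_left ht2.le hA0.le
      _ ≤ (2 * A + 1) * ‖y - x‖ := by nlinarith
      _ < ε := by
          rw [lt_div_iff₀ (by positivity)] at hy2
          linarith
  · rw [norm_smul, norm_inv, Real.norm_of_nonneg ht0.le, inv_mul_le_iff₀ ht0, mul_one]
    exact ht1.le
  · exact_mod_cast ht0.le
  · have : (t : ℝ) ≤ 1 := by linarith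
    exact_mod_cast this

/-- a functional which is polynomial on real lines of a finite dimensional space is continuous -/
theorem continuous_of_real_lines [FiniteDimensional ℝ E] {m : ℕ} {F : E → ℝ}
    (hF : IsFunctionalOfDegree m F)
    (hl : ∀ y h : E, ∃ p : ℝ[X], p.natDegree ≤ m ∧ ∀ t : ℝ, F (y + t • h) = p.eval t) :
    Continuous F := by
  classical
  apply continuous_of_bounded hF
  let b := Module.finBasis ℝ E
  obtain ⟨K, hK, hKp⟩ := coeff_bound m
  have key : ∀ (s : Finset (Fin (Module.finrank ℝ E))) (R : ℝ), 1 ≤ R → ∀ y : E, ∃ M : ℝ,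
      ∀ c : Fin (Module.finrank ℝ E) → ℝ, (∀ i, |c i| ≤ R) →
        |F (y + ∑ i ∈ s, c i • b i)| ≤ M := by
    intro s R hR
    induction s using Finset.induction_on with
    | empty =>
      intro y
      exact ⟨|F y|, fun c _ => by simp⟩
    | insert i s his ih =>
      intro y
      choose M hM using fun j : ℕ => ih (y + (j : ℝ) • b i)
      let M' := ∑ j ∈ Finset.range (m + 1), |M j|
      refine ⟨(m + 1) * (K * M' * R ^ m), fun c hc => ?_⟩
      obtain ⟨p, hp, hpt⟩ := hl (y + ∑ j ∈ s, c j • b j) (b i)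
      have h1 : ∀ j ≤ m, |p.eval (j : ℝ)| ≤ M' := by
        intro j hj
        rw [← hpt]
        have h2 := hM j c hc
        have h3 : y + (j : ℝ) • b i + ∑ i ∈ s, c i • b i =
            y + ∑ j ∈ s, c j • b j + (j : ℝ) • b i := by abel
        rw [h3] at h2
        refine h2.trans ((le_abs_self _).trans ?_)
        exact Finset.single_le_sum (f := fun j => |M j|) (fun _ _ => abs_nonneg _)
          (Finset.mem_range.mpr (by omega))
      have h4 := hKp p M' hp h1
      have h5 : y + ∑ i ∈ insert i s, c i • b i = y + ∑ j ∈ s, c j • b j + c i • b i := by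
        rw [Finset.sum_insert his]; abel
      rw [h5, hpt]
      refine eval_bound p hp ?_ h4 hR (hc i)
      positivity
  intro R
  -- coordinates are bounded
  let f : Fin (Module.finrank ℝ E) → E →L[ℝ] ℝ := fun i =>
    LinearMap.toContinuousLinearMap (b.coord i)
  let R' := 1 + ∑ i, ‖f i‖ * |R|
  obtain ⟨M, hM⟩ := key Finset.univ R' (by
    have : 0 ≤ ∑ i, ‖f i‖ * |R| := by positivity
    linarith) 0
  refine ⟨M, fun x hx => ?_⟩
  have h1 := hM (fun i => b.repr x i) (fun i => by
    have h2 : |b.repr x i| ≤ ‖f i‖ * ‖x‖ := (f i).le_opNorm x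
    have h3 : ‖f i‖ * ‖x‖ ≤ ‖f i‖ * |R| :=
      mul_le_mul_of_nonneg_left (hx.trans (le_abs_self R)) (norm_nonneg _)
    have h4 : ‖f i‖ * |R| ≤ ∑ i, ‖f i‖ * |R| :=
      Finset.single_le_sum (f := fun i => ‖f i‖ * |R|) (fun _ _ => by positivity)
        (Finset.mem_univ i)
    linarith)
  rw [zero_add, b.sum_repr] at h1
  exact h1

end Pool.Agent.Lib.MP_f5651a_an
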