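import Mathlib

/-!
# Functionals of degree `m` (problem MP_f5651a_an)
-/

set_option autoImplicit false

namespace Pool.Agent.Lib.MP_f5651a_an

/-- `F : E → ℝ` is a functional of degree `m`: for all `x₀ h₀ : E` there are real numbers
`a 0, …, a m` with `F (x₀ + t h₀) = a 0 + a 1 t + ⋯ + a m t ^ m` for all rational `t`.
No continuity is assumed. -/
def IsFunctionalOfDegree {E : Type*} [AddCommGroup E] [Module ℝ E] (m : ℕ) (F : E → ℝ) : Prop :=
  ∀ x₀ h₀ : E, ∃ a : ℕ → ℝ, ∀ t : ℚ,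
    F (x₀ + (t : ℝ) • h₀) = ∑ i ∈ Finset.range (m + 1), a i * (t : ℝ) ^ i

end Pool.Agent.Lib.MP_f5651a_an
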