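import Pool.Agent.Lib.MP_f5651a_an.Cont

set_option autoImplicit false

namespace Pool.Agent.Lib.MP_f5651a_an.FiniteDim

open Filter Topology Polynomial Pool.Agent.Lib.MP_f5651a_an

variable {E : Type*} [NormedAddCommGroup E] [NormedSpace ℝ E]

theorem poly_bound {m : ℕ} (p : ℝ[X]) (hp : p.natDegree ≤ m) {t : ℝ} (ht0 : 0 ≤ t) (ht1 : t ≤ 1) :
    |p.eval t| ≤ ∑ i ∈ Finset.range (m + 1), |p.coeff i| := by
  rw [Polynomial.eval_eq_sum_range' (Nat.lt_succ_of_le hp)]
  refine (Finset.abs_sum_le_sum_abs _ _).trans (Finset.sum_le_sum fun i _ => ?_)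
  rw [abs_mul, abs_of_nonneg (pow_nonneg ht0 i)]
  have : t ^ i ≤ 1 := pow_le_one₀ ht0 ht1
  nlinarith [abs_nonneg (p.coeff i)]

/-- rational approximation with tiny error -/
theorem exists_rat_approx (m : ℕ) (a P ε : ℝ) (hε : 0 < ε) :
    ∃ q : ℚ, |a - q| ≤ ε ∧ ∀ k ∈ Finset.range (m + 1), P * |(q : ℝ) ^ k - a ^ k| ≤ ε := by
  have hopen : IsOpen {z : ℝ | |a - z| < ε ∧ ∀ k ∈ Finset.range (m + 1), P * |z ^ k - a ^ k| < ε} := by
    have h1 : {z : ℝ | |a - z| < ε ∧ ∀ k ∈ Finset.range (m + 1), P * |z ^ k - a ^ k| < ε} =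
        {z : ℝ | |a - z| < ε} ∩ ⋂ k ∈ Finset.range (m + 1), {z : ℝ | P * |z ^ k - a ^ k| < ε} := by
      ext z; simp
    rw [h1]
    refine IsOpen.inter (isOpen_lt (by fun_prop) (by fun_prop)) ?_
    exact isOpen_biInter_finset fun k _ => isOpen_lt (by fun_prop) (by fun_prop)
  obtain ⟨q, hq⟩ := Rat.denseRange_cast (𝕜 := ℝ) |>.exists_mem_open hopen ⟨a, by
    simp only [Set.mem_ofPred_eq, sub_self, abs_zero, mul_zero]
    exact ⟨hε, fun _ _ => hε⟩⟩
  exact ⟨q, hq.1.le, fun k hk => (hq.2 k hk).le⟩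

theorem exists_sequence {m : ℕ} {F : E → ℝ} (hF : IsFunctionalOfDegree m F) (h : E) (α : ℝ)
    (hne : ∃ d, 1 ≤ d ∧ ∃ y, cc m F h α d y ≠ 0) :
    ∃ x : ℕ → E, Tendsto x atTop (𝓝 0) ∧ ∀ y, Tendsto (fun n => |F (x n + y)|) atTop atTop := by
  classical
  -- the top degree `d`
  obtain ⟨d, hd1, hdne, hdmax⟩ : ∃ d, 1 ≤ d ∧ (∃ y, cc m F h α d y ≠ 0) ∧
      ∀ d', d < d' → ∀ y, cc m F h α d' y = 0 := by
    obtain ⟨d₀, hd₀, hy₀⟩ := hne
    have hd₀m : d₀ ≤ m := by
      by_contra hcon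
      obtain ⟨y, hy⟩ := hy₀
      exact hy (cc_zero_of_lt hF h α d₀ (by omega) y)
    let P : ℕ → Prop := fun d => ∃ y, cc m F h α d y ≠ 0
    have hle : d₀ ≤ Nat.findGreatest P m := Nat.le_findGreatest hd₀m hy₀
    refine ⟨Nat.findGreatest P m, hd₀.trans hle, Nat.findGreatest_spec (P := P) hd₀m hy₀, ?_⟩
    intro d' hd' y
    by_cases hm : d' ≤ m
    · by_contra hcon
      exact Nat.findGreatest_is_greatest hd' hm ⟨y, hcon⟩
    · exact cc_zero_of_lt hF h α d' (by omega) y
  obtain ⟨e, w, c, hc0, hcq⟩ := exists_top_ne_zero (cc_degree hF h α d) hdne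
  -- the parameters
  let P : ℕ → ℕ := fun n => (n + 1) ^ (e + 1)
  have hP1 : ∀ n, (1 : ℝ) ≤ (P n : ℝ) := by
    intro n
    exact_mod_cast Nat.one_le_pow _ _ (Nat.succ_pos n)
  have hε : ∀ n : ℕ, (0 : ℝ) < 1 / ((n : ℝ) + 1) := fun n => by positivity
  choose q hq1 hq2 using fun n : ℕ => exists_rat_approx m (α * P n) ((P n : ℝ) ^ m) _ (hε n)
  let t : ℕ → ℚ := fun n => 1 / ((n : ℚ) + 1)
  have htr : ∀ n, ((t n : ℚ) : ℝ) = 1 / ((n : ℝ) + 1) := fun n => by simp [t]
  refine ⟨fun n => ((t n : ℚ) : ℝ) • w + (((P n : ℚ) : ℝ) • (α • h) + ((q n : ℚ) : ℝ) • (-h)),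
    ?_, ?_⟩
  · -- tends to zero
    rw [tendsto_zero_iff_norm_tendsto_zero]
    have h1 : Tendsto (fun n : ℕ => (‖w‖ + ‖h‖) * (1 / ((n : ℝ) + 1))) atTop
        (𝓝 ((‖w‖ + ‖h‖) * 0)) := tendsto_one_div_add_atTop_nhds_zero_nat.const_mul _
    rw [mul_zero] at h1
    refine squeeze_zero (fun _ => norm_nonneg _) (fun n => ?_) h1
    have h2 : (((P n : ℚ) : ℝ) • (α • h) + ((q n : ℚ) : ℝ) • (-h)) =
        (α * (P n : ℝ) - (q n : ℝ)) • h := by
      rw [smul_neg, sub_smul, smul_smul, mul_comm α]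
      push_cast
      abel
    rw [h2]
    refine (norm_add_le _ _).trans ?_
    rw [norm_smul, norm_smul, htr, Real.norm_of_nonneg (hε n).le, Real.norm_eq_abs, add_mul]
    have h3 := mul_le_mul_of_nonneg_right (hq1 n) (norm_nonneg h)
    linarith
  · intro y
    -- polynomials in `t`
    have hb := fun k l => isFunctional_iff.mp (bic_degree hF (α • h) (-h) k l) y w
    choose b hbd hbe using hb
    let M : ℝ := ∑ k ∈ Finset.range (m + 1), ∑ l ∈ Finset.range (m + 1),
      ∑ i ∈ Finset.range (m + 1), |(b k l).coeff i|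
    have hM0 : 0 ≤ M := by positivity
    have ht01 : ∀ n, 0 ≤ ((t n : ℚ) : ℝ) ∧ ((t n : ℚ) : ℝ) ≤ 1 := by
      intro n
      rw [htr]
      refine ⟨(hε n).le, ?_⟩
      rw [div_le_one (by positivity)]
      have : (0 : ℝ) ≤ n := Nat.cast_nonneg n
      linarith
    have hbM : ∀ n, ∀ k ∈ Finset.range (m + 1), ∀ l ∈ Finset.range (m + 1),
        |bic m F (α • h) (-h) k l (y + ((t n : ℚ) : ℝ) • w)| ≤ M := by
      intro n k hk l hl
      rw [hbe]
      refine (poly_bound (b k l) (hbd k l) (ht01 n).1 (ht01 n).2).trans ?_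
      refine (Finset.single_le_sum (f := fun l => ∑ i ∈ Finset.range (m + 1), |(b k l).coeff i|)
        (fun _ _ => by positivity) hl).trans ?_
      exact Finset.single_le_sum (f := fun k => ∑ l ∈ Finset.range (m + 1),
        ∑ i ∈ Finset.range (m + 1), |(b k l).coeff i|) (fun _ _ => by positivity) hk
    -- bound for `cc`
    let M₂ : ℝ := (m + 1) * ((m + 1) * ((1 + |α|) ^ m * M))
    have hM₂0 : 0 ≤ M₂ := by positivity
    have hccM : ∀ n d', |cc m F h α d' (y + ((t n : ℚ) : ℝ) • w)| ≤ M₂ := by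
      intro n d'
      unfold cc
      refine (Finset.abs_sum_le_sum_abs _ _).trans ?_
      have h1 : ∀ k ∈ Finset.range (m + 1), |∑ l ∈ Finset.range (m + 1),
          (if k + l = d' then α ^ k else 0) *
            bic m F (α • h) (-h) k l (y + ((t n : ℚ) : ℝ) • w)| ≤
          (m + 1) * ((1 + |α|) ^ m * M) := by
        intro k hk
        refine (Finset.abs_sum_le_sum_abs _ _).trans ?_
        have h2 : ∀ l ∈ Finset.range (m + 1), |(if k + l = d' then α ^ k else 0) *
            bic m F (α • h) (-h) k l (y + ((t n : ℚ) : ℝ) • w)| ≤ (1 + |α|) ^ m * M := by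
          intro l hl
          rw [abs_mul]
          refine mul_le_mul ?_ (hbM n k hk l hl) (abs_nonneg _) (by positivity)
          split_ifs
          · rw [abs_pow]
            rw [Finset.mem_range] at hk
            calc |α| ^ k ≤ (1 + |α|) ^ k :=
                  pow_le_pow_left₀ (abs_nonneg _) (by linarith) k
              _ ≤ (1 + |α|) ^ m :=
                  pow_le_pow_right₀ (by linarith [abs_nonneg α]) (by omega)
          · rw [abs_zero]; positivity
        refine (Finset.sum_le_sum h2).trans ?_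
        rw [Finset.sum_const, Finset.card_range, nsmul_eq_mul]
        push_cast
        exact le_rfl
      refine (Finset.sum_le_sum h1).trans ?_
      rw [Finset.sum_const, Finset.card_range, nsmul_eq_mul]
      push_cast
      exact le_rfl
    let M₃ : ℝ := (m + 1) * ((m + 1) * M)
    -- the main estimate
    have hmain : ∀ n, |cc m F h α d (y + ((t n : ℚ) : ℝ) • w)| * (P n : ℝ) ^ d -
        d * M₂ * (P n : ℝ) ^ (d - 1) - M₃ ≤
        |F (((t n : ℚ) : ℝ) • w + (((P n : ℚ) : ℝ) • (α • h) + ((q n : ℚ) : ℝ) • (-h)) + y)| := by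
      intro n
      set z : E := y + ((t n : ℚ) : ℝ) • w with hz
      have h1 : F (((t n : ℚ) : ℝ) • w + (((P n : ℚ) : ℝ) • (α • h) + ((q n : ℚ) : ℝ) • (-h)) + y) =
          F (z + (((P n : ℚ) : ℝ) • (α • h) + ((q n : ℚ) : ℝ) • (-h))) := by
        congr 1
        rw [hz]
        abel
      rw [h1, (bic_spec hF (α • h) (-h) z).2]
      have h2 := cc_sum m F h α (P n) z
      have h3 : ∑ d' ∈ Finset.range (2 * m + 1), cc m F h α d' z * (P n : ℝ) ^ d' =
          ∑ d' ∈ Finset.range d, cc m F h α d' z * (P n : ℝ) ^ d' +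
            cc m F h α d z * (P n : ℝ) ^ d := by
        rw [← Finset.sum_range_succ]
        have hdm : d ≤ m := by
          by_contra hcon
          obtain ⟨y', hy'⟩ := hdne
          exact hy' (cc_zero_of_lt hF h α d (by omega) y')
        symm
        apply Finset.sum_subset
        · intro i hi
          rw [Finset.mem_range] at hi ⊢
          omega
        · intro i _ hi
          rw [Finset.mem_range] at hi
          rw [hdmax i (by omega), zero_mul]
      rw [h3] at h2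
      have h4 : |∑ d' ∈ Finset.range d, cc m F h α d' z * (P n : ℝ) ^ d'| ≤
          d * M₂ * (P n : ℝ) ^ (d - 1) := by
        refine (Finset.abs_sum_le_sum_abs _ _).trans ?_
        have h5 : ∀ d' ∈ Finset.range d, |cc m F h α d' z * (P n : ℝ) ^ d'| ≤
            M₂ * (P n : ℝ) ^ (d - 1) := by
          intro d' hd'
          rw [Finset.mem_range] at hd'
          rw [abs_mul, abs_pow, abs_of_nonneg (by positivity : (0 : ℝ) ≤ (P n : ℝ))]
          refine mul_le_mul (hccM n d') ?_ (by positivity) hM₂0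
          exact pow_le_pow_right₀ (hP1 n) (by omega)
        refine (Finset.sum_le_sum h5).trans ?_
        rw [Finset.sum_const, Finset.card_range, nsmul_eq_mul]
        exact le_of_eq (by ring)
      have h6 : |∑ k ∈ Finset.range (m + 1), ∑ l ∈ Finset.range (m + 1),
            bic m F (α • h) (-h) k l z * ((P n : ℚ) : ℝ) ^ l * ((q n : ℚ) : ℝ) ^ k -
          ∑ k ∈ Finset.range (m + 1), ∑ l ∈ Finset.range (m + 1),
            bic m F (α • h) (-h) k l z * (P n : ℝ) ^ l * (α * (P n : ℝ)) ^ k| ≤ M₃ := by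
        rw [← Finset.sum_sub_distrib]
        refine (Finset.abs_sum_le_sum_abs _ _).trans ?_
        have h7 : ∀ k ∈ Finset.range (m + 1), |∑ l ∈ Finset.range (m + 1),
            bic m F (α • h) (-h) k l z * ((P n : ℚ) : ℝ) ^ l * ((q n : ℚ) : ℝ) ^ k -
            ∑ l ∈ Finset.range (m + 1),
            bic m F (α • h) (-h) k l z * (P n : ℝ) ^ l * (α * (P n : ℝ)) ^ k| ≤ (m + 1) * M := by
          intro k hk
          rw [← Finset.sum_sub_distrib]
          refine (Finset.abs_sum_le_sum_abs _ _).trans ?_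
          have h8 : ∀ l ∈ Finset.range (m + 1),
              |bic m F (α • h) (-h) k l z * ((P n : ℚ) : ℝ) ^ l * ((q n : ℚ) : ℝ) ^ k -
              bic m F (α • h) (-h) k l z * (P n : ℝ) ^ l * (α * (P n : ℝ)) ^ k| ≤ M := by
            intro l hl
            have h9 : bic m F (α • h) (-h) k l z * ((P n : ℚ) : ℝ) ^ l * ((q n : ℚ) : ℝ) ^ k -
                bic m F (α • h) (-h) k l z * (P n : ℝ) ^ l * (α * (P n : ℝ)) ^ k =
                bic m F (α • h) (-h) k l z * ((P n : ℝ) ^ l *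
                  (((q n : ℚ) : ℝ) ^ k - (α * (P n : ℝ)) ^ k)) := by
              push_cast
              ring
            rw [h9, abs_mul, abs_mul, abs_of_nonneg (by positivity : (0 : ℝ) ≤ (P n : ℝ) ^ l)]
            have h10 : (P n : ℝ) ^ l * |((q n : ℚ) : ℝ) ^ k - (α * (P n : ℝ)) ^ k| ≤ 1 := by
              rw [Finset.mem_range] at hl
              calc (P n : ℝ) ^ l * |((q n : ℚ) : ℝ) ^ k - (α * (P n : ℝ)) ^ k|
                  ≤ (P n : ℝ) ^ m * |((q n : ℚ) : ℝ) ^ k - (α * (P n : ℝ)) ^ k| :=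
                    mul_le_mul_of_nonneg_right (pow_le_pow_right₀ (hP1 n) (by omega))
                      (abs_nonneg _)
                _ ≤ 1 / ((n : ℝ) + 1) := hq2 n k hk
                _ ≤ 1 := by
                    rw [div_le_one (by positivity)]
                    have : (0 : ℝ) ≤ n := Nat.cast_nonneg n
                    linarith
            calc _ ≤ M * 1 := mul_le_mul (hbM n k hk l hl) h10 (by positivity) hM0
              _ = M := mul_one M
          refine (Finset.sum_le_sum h8).trans ?_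
          rw [Finset.sum_const, Finset.card_range, nsmul_eq_mul]
          push_cast
          exact le_rfl
        refine (Finset.sum_le_sum h7).trans ?_
        rw [Finset.sum_const, Finset.card_range, nsmul_eq_mul]
        push_cast
        exact le_rfl
      rw [h2] at h6
      have h11 : |cc m F h α d z| * (P n : ℝ) ^ d = |cc m F h α d z * (P n : ℝ) ^ d| := by
        rw [abs_mul, abs_of_nonneg (by positivity : (0 : ℝ) ≤ (P n : ℝ) ^ d)]
      rw [h11]
      rw [abs_le] at h4 h6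
      rcases abs_cases (cc m F h α d z * (P n : ℝ) ^ d) with ⟨h12, _⟩ | ⟨h12, _⟩ <;>
        rw [h12] <;>
        rcases abs_cases (∑ k ∈ Finset.range (m + 1), ∑ l ∈ Finset.range (m + 1),
            bic m F (α • h) (-h) k l z * ((P n : ℚ) : ℝ) ^ l * ((q n : ℚ) : ℝ) ^ k) with
          ⟨h13, _⟩ | ⟨h13, _⟩ <;>
        rw [h13] <;> linarith
    -- lower bound of the leading term
    obtain ⟨Q, hQd, hQc, hQt⟩ := hcq y
    obtain ⟨κ, hκ, δ, hδ, hlow⟩ := poly_lower hQd (by rw [hQc]; exact hc0)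
    have hev1 : ∀ᶠ n : ℕ in atTop, 1 / ((n : ℝ) + 1) < δ :=
      tendsto_one_div_add_atTop_nhds_zero_nat.eventually_lt_const hδ
    have hcast : Tendsto (fun n : ℕ => κ * ((n : ℝ) + 1)) atTop atTop :=
      Tendsto.const_mul_atTop hκ (tendsto_natCast_atTop_atTop.atTop_add tendsto_const_nhds)
    have hev2 : ∀ᶠ n : ℕ in atTop, d * M₂ ≤ κ * ((n : ℝ) + 1) :=
      hcast.eventually_ge_atTop _
    have hfin : Tendsto (fun n : ℕ => κ * ((n : ℝ) + 1) - d * M₂ - M₃) atTop atTop := by
      have := hcast.atTop_add (tendsto_const_nhds (x := - (d * M₂) - M₃))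
      refine this.congr fun n => by ring
    refine tendsto_atTop_mono' atTop ?_ hfin
    filter_upwards [hev1, hev2] with n hn1 hn2
    refine le_trans ?_ (hmain n)
    have h1 : κ * (1 / ((n : ℝ) + 1)) ^ e ≤ |cc m F h α d (y + ((t n : ℚ) : ℝ) • w)| := by
      rw [hQt, htr]
      exact hlow _ (hε n) hn1
    have h2 : κ * (1 / ((n : ℝ) + 1)) ^ e * (P n : ℝ) ^ d =
        κ * ((n : ℝ) + 1) * (P n : ℝ) ^ (d - 1) := by
      obtain ⟨d', rfl⟩ : ∃ d', d = d' + 1 := ⟨d - 1, by omega⟩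
      rw [Nat.add_sub_cancel, pow_succ (P n : ℝ) d']
      have h3 : (P n : ℝ) = ((n : ℝ) + 1) ^ (e + 1) := by simp [P]
      have h4 : (1 / ((n : ℝ) + 1)) ^ e * (P n : ℝ) = (n : ℝ) + 1 := by
        rw [h3, one_div, inv_pow, pow_succ]
        field_simp
      calc κ * (1 / ((n : ℝ) + 1)) ^ e * ((P n : ℝ) ^ d' * (P n : ℝ))
          = κ * ((1 / ((n : ℝ) + 1)) ^ e * (P n : ℝ)) * (P n : ℝ) ^ d' := by ring
        _ = _ := by rw [h4]
    have h5 : (1 : ℝ) ≤ (P n : ℝ) ^ (d - 1) := one_le_pow₀ (hP1 n)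
    have h6 : κ * (1 / ((n : ℝ) + 1)) ^ e * (P n : ℝ) ^ d ≤
        |cc m F h α d (y + ((t n : ℚ) : ℝ) • w)| * (P n : ℝ) ^ d :=
      mul_le_mul_of_nonneg_right h1 (by positivity)
    rw [h2] at h6
    nlinarith

/-- Positive answer to Q1 for finite dimensional spaces. -/
theorem finite_dim {E : Type*} [NormedAddCommGroup E] [NormedSpace ℝ E] [FiniteDimensional ℝ E]
    (m : ℕ) (F : E → ℝ) (hF : IsFunctionalOfDegree m F) (hdisc : ¬ Continuous F) :
    ∃ x : ℕ → E, Tendsto x atTop (𝓝 0) ∧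
      ∀ y : E, Tendsto (fun n => |F (x n + y)|) atTop atTop := by
  by_cases hne : ∃ (h : E) (α : ℝ) (d : ℕ), 1 ≤ d ∧ ∃ y, cc m F h α d y ≠ 0
  · obtain ⟨h, α, hd⟩ := hne
    exact exists_sequence hF h α hd
  · exfalso
    push Not at hne
    apply hdisc
    apply continuous_of_real_lines hF
    intro y h
    obtain ⟨p, hp, hpt⟩ := isFunctional_iff.mp hF y h
    exact ⟨p, hp, fun α => real_line_of_cc hF h α (fun d hd z => hne h α d hd z) y p hpt⟩

end Pool.Agent.Lib.MP_f5651a_an.FiniteDim
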