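import Mathlib
import Pool.Agent.Lib.MP_f5651a_an.Core
import Pool.Agent.Lib.MP_f5651a_an.Card

set_option autoImplicit false

namespace Pool.Agent.Lib.MP_f5651a_an.InfiniteDim

open Filter Topology

/-- **Negative answer to Q1 in every infinite-dimensional Banach space and every degree `m ≥ 2`.**
There is a discontinuous functional `F` of degree `m` on `E` such that for every sequence `x` with
`x n → 0` some `y : E` has `|F (x n + y)|` not tending to infinity. -/
theorem infinite_dim (E : Type*) [NormedAddCommGroup E] [NormedSpace ℝ E] [CompleteSpace E]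
    (hE : ¬ FiniteDimensional ℝ E) (m : ℕ) (hm : 2 ≤ m) :
    ∃ F : E → ℝ,
      (∀ x₀ h₀ : E, ∃ a : ℕ → ℝ, ∀ t : ℚ,
        F (x₀ + (t : ℝ) • h₀) = ∑ i ∈ Finset.range (m + 1), a i * (t : ℝ) ^ i) ∧
      ¬ Continuous F ∧
      ∀ x : ℕ → E, Tendsto x atTop (𝓝 0) →
        ∃ y : E, ¬ Tendsto (fun n => |F (x n + y)|) atTop atTop := by
  obtain ⟨e⟩ := Pool.Agent.Lib.MP_f5651a_an.exists_equiv E hE
  have : Nonempty E := ⟨0⟩
  obtain ⟨F, hF1, hF2, hF3⟩ := Pool.Agent.Lib.MP_f5651a_an.core (A := E) hE e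
  refine ⟨F, fun x₀ h₀ => ?_, hF2, hF3⟩
  obtain ⟨a, b, c, h⟩ := hF1 x₀ h₀
  refine ⟨fun i => if i = 0 then a else if i = 1 then b else if i = 2 then c else 0, fun t => ?_⟩
  rw [h]
  have hsub : Finset.range 3 ⊆ Finset.range (m + 1) := by
    intro i hi
    rw [Finset.mem_range] at hi ⊢
    omega
  rw [← Finset.sum_subset hsub]
  · simp [Finset.sum_range_succ]
  · intro i _ hi
    rw [Finset.mem_range] at hi
    have h0 : i ≠ 0 := by omega
    have h1 : i ≠ 1 := by omega
    have h2 : i ≠ 2 := by omega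
    simp [h0, h1, h2]

end Pool.Agent.Lib.MP_f5651a_an.InfiniteDim
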