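import Pool.Agent.Lib.MP_f5651a_an.Poly

set_option autoImplicit false

namespace Pool.Agent.Lib.MP_f5651a_an

open Polynomial Filter Topology

section algebra

variable {E : Type*} [AddCommGroup E] [Module ℝ E]

theorem degree_translate {m : ℕ} {F : E → ℝ} (hF : IsFunctionalOfDegree m F) (y : E) :
    IsFunctionalOfDegree m (fun x => F (y + x)) := by
  intro x₀ h₀
  obtain ⟨a, ha⟩ := hF (y + x₀) h₀
  exact ⟨a, fun t => by rw [← ha t, add_assoc]⟩

theorem degree_const_mul {m : ℕ} {F : E → ℝ} (hF : IsFunctionalOfDegree m F) (c : ℝ) :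
    IsFunctionalOfDegree m (fun x => c * F x) := by
  intro x₀ h₀
  obtain ⟨a, ha⟩ := hF x₀ h₀
  refine ⟨fun i => c * a i, fun t => ?_⟩
  beta_reduce
  rw [ha t, Finset.mul_sum]
  exact Finset.sum_congr rfl fun i _ => by ring

theorem degree_sum {m : ℕ} {ι : Type*} (s : Finset ι) (F : ι → E → ℝ)
    (hF : ∀ i ∈ s, IsFunctionalOfDegree m (F i)) :
    IsFunctionalOfDegree m (fun x => ∑ i ∈ s, F i x) := by
  intro x₀ h₀
  choose! a ha using fun i hi => hF i hi x₀ h₀
  refine ⟨fun j => ∑ i ∈ s, a i j, fun t => ?_⟩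
  beta_reduce
  rw [Finset.sum_congr rfl (fun i hi => ha i hi t), Finset.sum_comm]
  exact Finset.sum_congr rfl fun i _ => by rw [Finset.sum_mul]

/-- coefficients of the Lagrange basis at `0, …, m` -/
noncomputable def lag (m j k : ℕ) : ℝ :=
  (Lagrange.basis (Finset.range (m + 1)) (fun i : ℕ => (i : ℝ)) j).coeff k

/-- coefficients of the polynomial `(s, t) ↦ F (y + s u + t v)` -/
noncomputable def bic (m : ℕ) (F : E → ℝ) (u v : E) (k l : ℕ) (y : E) : ℝ :=
  ∑ i ∈ Finset.range (m + 1), ∑ j ∈ Finset.range (m + 1),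
    (lag m i l * lag m j k) * F (((i : ℝ) • u + (j : ℝ) • v) + y)

theorem bic_degree {m : ℕ} {F : E → ℝ} (hF : IsFunctionalOfDegree m F) (u v : E) (k l : ℕ) :
    IsFunctionalOfDegree m (bic m F u v k l) := by
  unfold bic
  exact degree_sum _ _ fun i _ => degree_sum _ _ fun j _ =>
    degree_const_mul (degree_translate hF _) _

theorem lag_rep {m : ℕ} (p : ℝ[X]) (hp : p.natDegree ≤ m) (k : ℕ) :
    p.coeff k = ∑ j ∈ Finset.range (m + 1), lag m j k * p.eval (j : ℝ) := by
  classical
  let v : ℕ → ℝ := fun j => (j : ℝ)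
  have hv : Set.InjOn v (Finset.range (m + 1)) := fun i _ j _ hij => Nat.cast_injective hij
  have hp' : p.degree < (Finset.range (m + 1)).card := by
    rw [Finset.card_range]
    refine lt_of_le_of_lt degree_le_natDegree ?_
    exact_mod_cast Nat.lt_succ_of_le hp
  have hint := Lagrange.eq_interpolate hv hp'
  conv_lhs => rw [hint]
  rw [Lagrange.interpolate_apply, finsetSum_coeff]
  refine Finset.sum_congr rfl fun j _ => ?_
  rw [coeff_C_mul, mul_comm]
  rfl

theorem bic_spec {m : ℕ} {F : E → ℝ} (hF : IsFunctionalOfDegree m F) (u v y : E) :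
    (∀ k l, m < k + l → bic m F u v k l y = 0) ∧
    ∀ s t : ℚ, F (y + ((s : ℝ) • u + (t : ℝ) • v)) =
      ∑ k ∈ Finset.range (m + 1), ∑ l ∈ Finset.range (m + 1),
        bic m F u v k l y * (s : ℝ) ^ l * (t : ℝ) ^ k := by
  obtain ⟨g, hg0, hg⟩ := exists_bipoly (degree_translate hF y) u v
  -- compute `g` by interpolation
  have hgk : ∀ k l, bic m F u v k l y = g k l := by
    intro k l
    -- the polynomials in `t` for `s = i`
    let A : ℕ → ℝ[X] := fun i => ∑ k' ∈ Finset.range (m + 1),
      C (∑ l' ∈ Finset.range (m + 1), g k' l' * (i : ℝ) ^ l') * X ^ k'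
    have hAd : ∀ i, (A i).natDegree ≤ m := by
      intro i
      apply Polynomial.natDegree_sum_le_of_forall_le
      intro i hi
      rw [Finset.mem_range] at hi
      exact (natDegree_C_mul_X_pow_le _ _).trans (by omega)
    have hAc : ∀ i, (A i).coeff k = ∑ l' ∈ Finset.range (m + 1), g k l' * (i : ℝ) ^ l' := by
      intro i
      simp only [A, finsetSum_coeff, coeff_C_mul, coeff_X_pow]
      by_cases hk : k ≤ m
      · rw [Finset.sum_eq_single_of_mem k (Finset.mem_range.mpr (by omega))]
        · simp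
        · intro k' _ hk'
          rw [if_neg (Ne.symm hk'), mul_zero]
      · rw [Finset.sum_eq_zero, Finset.sum_eq_zero]
        · intro l' _
          rw [hg0 k l' (by omega), zero_mul]
        · intro k' hk'
          rw [Finset.mem_range] at hk'
          rw [if_neg (by omega), mul_zero]
    have hAe : ∀ i j : ℕ, (A i).eval (j : ℝ) = F (((i : ℝ) • u + (j : ℝ) • v) + y) := by
      intro i j
      have h1 := hg (i : ℚ) (j : ℚ)
      rw [Rat.cast_natCast, Rat.cast_natCast] at h1
      rw [add_comm, h1, Polynomial.eval_finsetSum]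
      refine Finset.sum_congr rfl fun k' _ => ?_
      rw [eval_mul, eval_C, eval_pow, eval_X, Finset.sum_mul]
    let B : ℝ[X] := ∑ l' ∈ Finset.range (m + 1), C (g k l') * X ^ l'
    have hBd : B.natDegree ≤ m := by
      apply Polynomial.natDegree_sum_le_of_forall_le
      intro i hi
      rw [Finset.mem_range] at hi
      exact (natDegree_C_mul_X_pow_le _ _).trans (by omega)
    have hBc : B.coeff l = g k l := by
      simp only [B, finsetSum_coeff, coeff_C_mul, coeff_X_pow]
      by_cases hl : l ≤ m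
      · rw [Finset.sum_eq_single_of_mem l (Finset.mem_range.mpr (by omega))]
        · simp
        · intro k' _ hk'
          rw [if_neg (Ne.symm hk'), mul_zero]
      · rw [Finset.sum_eq_zero, hg0 k l (by omega)]
        intro k' hk'
        rw [Finset.mem_range] at hk'
        rw [if_neg (by omega), mul_zero]
    rw [← hBc, lag_rep B hBd]
    unfold bic
    refine Finset.sum_congr rfl fun i _ => ?_
    have h2 : B.eval (i : ℝ) = (A i).coeff k := by
      rw [hAc, Polynomial.eval_finsetSum]
      refine Finset.sum_congr rfl fun l' _ => ?_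
      rw [eval_mul, eval_C, eval_pow, eval_X]
    rw [h2, lag_rep (A i) (hAd i), Finset.mul_sum]
    refine Finset.sum_congr rfl fun j _ => ?_
    rw [hAe, mul_assoc]
  constructor
  · intro k l hkl
    rw [hgk, hg0 k l hkl]
  · intro s t
    rw [hg s t]
    refine Finset.sum_congr rfl fun k _ => Finset.sum_congr rfl fun l _ => ?_
    rw [hgk]

/-- the coefficient of `s ^ d` in `F (y + s α h - (α s) h)`, computed formally -/
noncomputable def cc (m : ℕ) (F : E → ℝ) (h : E) (α : ℝ) (d : ℕ) (y : E) : ℝ :=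
  ∑ k ∈ Finset.range (m + 1), ∑ l ∈ Finset.range (m + 1),
    (if k + l = d then α ^ k else 0) * bic m F (α • h) (-h) k l y

theorem cc_degree {m : ℕ} {F : E → ℝ} (hF : IsFunctionalOfDegree m F) (h : E) (α : ℝ) (d : ℕ) :
    IsFunctionalOfDegree m (cc m F h α d) := by
  unfold cc
  exact degree_sum _ _ fun k _ => degree_sum _ _ fun l _ =>
    degree_const_mul (bic_degree hF _ _ _ _) _

theorem cc_zero_of_lt {m : ℕ} {F : E → ℝ} (hF : IsFunctionalOfDegree m F) (h : E) (α : ℝ) (d : ℕ)
    (hd : m < d) (y : E) : cc m F h α d y = 0 := by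
  unfold cc
  refine Finset.sum_eq_zero fun k _ => Finset.sum_eq_zero fun l _ => ?_
  split_ifs with hkl
  · rw [(bic_spec hF _ _ y).1 k l (by omega), mul_zero]
  · rw [zero_mul]

/-- expansion in powers of `s` -/
theorem cc_sum (m : ℕ) (F : E → ℝ) (h : E) (α s : ℝ) (y : E) :
    ∑ k ∈ Finset.range (m + 1), ∑ l ∈ Finset.range (m + 1),
      bic m F (α • h) (-h) k l y * s ^ l * (α * s) ^ k =
    ∑ d ∈ Finset.range (2 * m + 1), cc m F h α d y * s ^ d := by
  unfold cc
  simp only [Finset.sum_mul]
  symm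
  rw [Finset.sum_comm]
  refine Finset.sum_congr rfl fun k hk => ?_
  rw [Finset.sum_comm]
  refine Finset.sum_congr rfl fun l hl => ?_
  rw [Finset.mem_range] at hk hl
  rw [Finset.sum_eq_single_of_mem (k + l) (Finset.mem_range.mpr (by omega))]
  · rw [if_pos rfl, mul_pow, pow_add]
    ring
  · intro d _ hd
    rw [if_neg (Ne.symm hd), zero_mul, zero_mul]

/-- if all the coefficients vanish, `F` is a real polynomial on real lines -/
theorem real_line_of_cc {m : ℕ} {F : E → ℝ} (hF : IsFunctionalOfDegree m F) (h : E) (α : ℝ)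
    (hcc : ∀ d, 1 ≤ d → ∀ y, cc m F h α d y = 0) (y : E) (p : ℝ[X])
    (hp : ∀ t : ℚ, F (y + (t : ℝ) • h) = p.eval (t : ℝ)) :
    F (y + α • h) = p.eval α := by
  -- the value at `(1, α)`
  have h1 : ∀ z : E, ∑ k ∈ Finset.range (m + 1), ∑ l ∈ Finset.range (m + 1),
      bic m F (α • h) (-h) k l z * α ^ k = F z := by
    intro z
    have h2 := cc_sum m F h α 1 z
    simp only [one_pow, mul_one] at h2
    rw [h2, Finset.sum_eq_single_of_mem 0 (Finset.mem_range.mpr (by omega))]
    · have h3 := (bic_spec hF (α • h) (-h) z).2 0 0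
      simp only [Rat.cast_zero, zero_smul, add_zero] at h3
      rw [h3]
      unfold cc
      rw [Finset.sum_eq_single_of_mem 0 (Finset.mem_range.mpr (by omega)),
        Finset.sum_eq_single_of_mem 0 (Finset.mem_range.mpr (by omega)),
        Finset.sum_eq_single_of_mem 0 (Finset.mem_range.mpr (by omega)),
        Finset.sum_eq_single_of_mem 0 (Finset.mem_range.mpr (by omega))]
      · simp
      · intro l _ hl
        rw [zero_pow hl]
        simp
      · intro k _ hk
        apply Finset.sum_eq_zero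
        intro l _
        rw [zero_pow hk, mul_zero]
      · intro l _ hl
        rw [if_neg (by omega), zero_mul]
      · intro k _ hk
        apply Finset.sum_eq_zero
        intro l _
        rw [if_neg (by omega), zero_mul]
    · intro d _ hd
      exact hcc d (by omega) z
  -- translation by rational multiples of `h`
  have h4 : ∀ r : ℚ, p.eval (r : ℝ) = ∑ k ∈ Finset.range (m + 1), ∑ l ∈ Finset.range (m + 1),
      bic m F (α • h) (-h) k l y * (α - r) ^ k := by
    intro r
    rw [← hp r, ← h1 (y + (r : ℝ) • h)]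
    have h5 : ∑ k ∈ Finset.range (m + 1), ∑ l ∈ Finset.range (m + 1),
          C (bic m F (α • h) (-h) k l (y + (r : ℝ) • h)) * X ^ k =
        ∑ k ∈ Finset.range (m + 1), ∑ l ∈ Finset.range (m + 1),
          C (bic m F (α • h) (-h) k l y) * (X - C (r : ℝ)) ^ k := by
      apply poly_eq_of_rat
      intro t
      simp only [Polynomial.eval_finsetSum, eval_mul, eval_C, eval_pow, eval_X, eval_sub]
      have h6 := (bic_spec hF (α • h) (-h) (y + (r : ℝ) • h)).2 1 t
      have h7 := (bic_spec hF (α • h) (-h) y).2 1 (t - r)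
      simp only [Rat.cast_one, one_pow, mul_one, one_smul, Rat.cast_sub] at h6 h7
      rw [← h6, ← h7]
      congr 1
      rw [smul_neg, smul_neg, sub_smul]
      abel
    have h8 := congrArg (Polynomial.eval α) h5
    simpa only [Polynomial.eval_finsetSum, eval_mul, eval_C, eval_pow, eval_X, eval_sub] using h8
  have h9 : p = ∑ k ∈ Finset.range (m + 1), ∑ l ∈ Finset.range (m + 1),
      C (bic m F (α • h) (-h) k l y) * (C α - X) ^ k := by
    apply poly_eq_of_rat
    intro r
    rw [h4 r]
    simp only [Polynomial.eval_finsetSum, eval_mul, eval_C, eval_pow, eval_X, eval_sub]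
  rw [h9]
  simp only [Polynomial.eval_finsetSum, eval_mul, eval_C, eval_pow, eval_X, eval_sub, sub_self]
  have h10 := (bic_spec hF (α • h) (-h) y).2 1 0
  simp only [Rat.cast_one, one_smul, Rat.cast_zero, zero_smul, add_zero, one_pow, mul_one] at h10
  exact h10

/-- nonzero functionals have a nonzero top coefficient for the right degree -/
theorem exists_top_ne_zero {m : ℕ} {f : E → ℝ} (hf : IsFunctionalOfDegree m f)
    (hne : ∃ y, f y ≠ 0) :
    ∃ (e : ℕ) (w : E) (c : ℝ), c ≠ 0 ∧ ∀ y : E, ∃ q : ℝ[X], q.natDegree ≤ e ∧ q.coeff e = c ∧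
      ∀ t : ℚ, f (y + (t : ℝ) • w) = q.eval (t : ℝ) := by
  classical
  have hex : ∃ e, IsFunctionalOfDegree e f := ⟨m, hf⟩
  let e := Nat.find hex
  have he : IsFunctionalOfDegree e f := Nat.find_spec hex
  obtain ⟨c, hc1, hc2, _⟩ := exists_top he
  have hw : ∃ w, c w ≠ 0 := by
    by_contra hcon
    push Not at hcon
    rcases Nat.eq_zero_or_pos e with h0 | h0
    · obtain ⟨y, hy⟩ := hne
      obtain ⟨q, hq, hqc, hqt⟩ := hc1 y 0
      have h1 := hqt 0
      rw [Rat.cast_zero, zero_smul, add_zero] at h1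
      rw [h0] at hq hqc
      rw [Polynomial.eq_C_of_natDegree_le_zero hq, hqc, hcon 0] at h1
      simp at h1
      exact hy h1
    · obtain ⟨e', he'⟩ := Nat.exists_eq_succ_of_ne_zero (Nat.pos_iff_ne_zero.mp h0)
      rw [he'] at hc1 hc2
      have h2 := degree_reduce hc1 hc2
      have h3 : (fun x => f x - c x) = f := by
        funext x
        rw [hcon x, sub_zero]
      rw [h3] at h2
      have h4 : e ≤ e' := Nat.find_min' hex h2
      omega
  obtain ⟨w, hw⟩ := hw
  exact ⟨e, w, c w, hw, fun y => hc1 y w⟩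

end algebra

/-- lower bound for a nonzero polynomial near `0` -/
theorem poly_lower {q : ℝ[X]} {e : ℕ} (hq : q.natDegree ≤ e) (hne : q.coeff e ≠ 0) :
    ∃ κ : ℝ, 0 < κ ∧ ∃ δ : ℝ, 0 < δ ∧ ∀ t : ℝ, 0 < t → t < δ → κ * t ^ e ≤ |q.eval t| := by
  have hq0 : q ≠ 0 := by
    intro h; apply hne; rw [h, coeff_zero]
  obtain ⟨r, hr, hnd⟩ := Polynomial.exists_eq_pow_rootMultiplicity_mul_and_not_dvd q hq0 0
  set n := q.rootMultiplicity 0 with hn
  have hr0 : r.eval 0 ≠ 0 := by
    intro h
    apply hnd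
    rw [Polynomial.dvd_iff_isRoot]
    exact h
  have hne' : n ≤ e := by
    have h1 : (X - C (0 : ℝ)) ^ n ∣ q := ⟨r, hr⟩
    have h2 := Polynomial.natDegree_le_of_dvd h1 hq0
    rw [natDegree_pow, natDegree_X_sub_C, mul_one] at h2
    omega
  have hcont : Filter.Tendsto (fun t : ℝ => |r.eval t|) (𝓝 0) (𝓝 |r.eval 0|) :=
    (r.continuous.tendsto 0).abs
  have hpos : 0 < |r.eval 0| := abs_pos.mpr hr0
  have hev := hcont.eventually (lt_mem_nhds (show |r.eval 0| / 2 < |r.eval 0| by linarith))
  rw [Metric.eventually_nhds_iff] at hev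
  obtain ⟨δ, hδ, hev⟩ := hev
  refine ⟨|r.eval 0| / 2, by positivity, min δ 1, by positivity, fun t ht0 ht1 => ?_⟩
  have h1 : |r.eval 0| / 2 < |r.eval t| := by
    apply hev
    rw [Real.dist_eq, sub_zero, abs_of_pos ht0]
    exact lt_of_lt_of_le ht1 (min_le_left _ _)
  have h2 : q.eval t = t ^ n * r.eval t := by
    conv_lhs => rw [hr]
    simp
  rw [h2, abs_mul, abs_of_pos (pow_pos ht0 n), mul_comm]
  have h3 : t ^ e ≤ t ^ n :=
    pow_le_pow_of_le_one ht0.le (lt_of_lt_of_le ht1 (min_le_right _ _)).le hne'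
  exact mul_le_mul h3 h1.le (by positivity) (by positivity)

end Pool.Agent.Lib.MP_f5651a_an
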