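import Pool.Agent.Lib.MP_f5651a_an.Defs

set_option autoImplicit false

namespace Pool.Agent.Lib.MP_f5651a_an

open Polynomial Filter Topology

theorem poly_eq_of_rat {p q : ℝ[X]} (h : ∀ t : ℚ, p.eval (t : ℝ) = q.eval (t : ℝ)) : p = q := by
  apply Polynomial.eq_of_infinite_eval_eq
  apply Set.Infinite.mono (s := Set.range (fun t : ℚ => (t : ℝ)))
  · rintro _ ⟨t, rfl⟩
    exact h t
  · exact Set.infinite_range_of_injective Rat.cast_injective

variable {E : Type*} [AddCommGroup E] [Module ℝ E]

theorem isFunctional_iff {m : ℕ} {F : E → ℝ} :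
    IsFunctionalOfDegree m F ↔ ∀ x h : E, ∃ p : ℝ[X], p.natDegree ≤ m ∧
      ∀ t : ℚ, F (x + (t : ℝ) • h) = p.eval (t : ℝ) := by
  constructor
  · intro hF x h
    obtain ⟨a, ha⟩ := hF x h
    refine ⟨∑ i ∈ Finset.range (m + 1), C (a i) * X ^ i, ?_, ?_⟩
    · apply Polynomial.natDegree_sum_le_of_forall_le
      intro i hi
      rw [Finset.mem_range] at hi
      exact (natDegree_C_mul_X_pow_le _ _).trans (by omega)
    · intro t
      rw [ha t, Polynomial.eval_finsetSum]
      simp
  · intro hF x h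
    obtain ⟨p, hp, hpt⟩ := hF x h
    refine ⟨p.coeff, fun t => ?_⟩
    rw [hpt t, Polynomial.eval_eq_sum_range' (Nat.lt_succ_of_le hp)]

/-- two-variable polynomial representation of `F (s x + t h)` -/
theorem exists_bipoly {m : ℕ} {F : E → ℝ} (hF : IsFunctionalOfDegree m F) (x h : E) :
    ∃ g : ℕ → ℕ → ℝ, (∀ k l, m < k + l → g k l = 0) ∧
      ∀ s t : ℚ, F ((s : ℝ) • x + (t : ℝ) • h) =
        ∑ k ∈ Finset.range (m + 1), ∑ l ∈ Finset.range (m + 1),
          g k l * (s : ℝ) ^ l * (t : ℝ) ^ k := by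
  classical
  rw [isFunctional_iff] at hF
  -- polynomials in `s` for `t = j`
  have hq : ∀ j : ℕ, ∃ p : ℝ[X], p.natDegree ≤ m ∧
      ∀ s : ℚ, F ((s : ℝ) • x + (j : ℝ) • h) = p.eval (s : ℝ) := by
    intro j
    obtain ⟨p, hp, hpt⟩ := hF ((j : ℝ) • h) x
    refine ⟨p, hp, fun s => ?_⟩
    rw [← hpt s, add_comm]
  choose q hqd hqe using hq
  -- Lagrange basis
  let v : ℕ → ℝ := fun j => (j : ℝ)
  have hv : Set.InjOn v (Finset.range (m + 1)) := fun i _ j _ hij => Nat.cast_injective hij
  let L : ℕ → ℝ[X] := fun j => Lagrange.basis (Finset.range (m + 1)) v j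
  have hLd : ∀ j ∈ Finset.range (m + 1), (L j).natDegree ≤ m := by
    intro j hj
    have := Lagrange.degree_basis hv hj
    rw [Finset.card_range] at this
    exact natDegree_le_of_degree_le (by rw [this]; simp)
  -- the representation by Lagrange interpolation
  have hrep : ∀ s t : ℚ, F ((s : ℝ) • x + (t : ℝ) • h) =
      ∑ j ∈ Finset.range (m + 1), (q j).eval (s : ℝ) * (L j).eval (t : ℝ) := by
    intro s t
    obtain ⟨p, hp, hpt⟩ := hF ((s : ℝ) • x) h
    have hp' : p.degree < (Finset.range (m + 1)).card := by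
      rw [Finset.card_range]
      refine lt_of_le_of_lt degree_le_natDegree ?_
      exact_mod_cast Nat.lt_succ_of_le hp
    have hint := Lagrange.eq_interpolate hv hp'
    rw [hpt t, hint, Lagrange.interpolate_apply, Polynomial.eval_finsetSum]
    refine Finset.sum_congr rfl fun j _ => ?_
    rw [Polynomial.eval_mul, Polynomial.eval_C]
    congr 1
    have := hpt (j : ℚ)
    rw [Rat.cast_natCast] at this
    rw [← this, ← hqe j s]
  let g : ℕ → ℕ → ℝ := fun k l => ∑ j ∈ Finset.range (m + 1), (q j).coeff l * (L j).coeff k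
  have hg : ∀ s t : ℚ, F ((s : ℝ) • x + (t : ℝ) • h) =
        ∑ k ∈ Finset.range (m + 1), ∑ l ∈ Finset.range (m + 1),
          g k l * (s : ℝ) ^ l * (t : ℝ) ^ k := by
    intro s t
    rw [hrep]
    have h1 : ∀ j ∈ Finset.range (m + 1), (q j).eval (s : ℝ) * (L j).eval (t : ℝ) =
        ∑ k ∈ Finset.range (m + 1), ∑ l ∈ Finset.range (m + 1),
          (q j).coeff l * (L j).coeff k * (s : ℝ) ^ l * (t : ℝ) ^ k := by
      intro j hj
      rw [Polynomial.eval_eq_sum_range' (Nat.lt_succ_of_le (hqd j)),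
        Polynomial.eval_eq_sum_range' (Nat.lt_succ_of_le (hLd j hj)), Finset.sum_mul_sum,
        Finset.sum_comm]
      refine Finset.sum_congr rfl fun k _ => Finset.sum_congr rfl fun l _ => ?_
      ring
    rw [Finset.sum_congr rfl h1, Finset.sum_comm]
    refine Finset.sum_congr rfl fun k _ => ?_
    rw [Finset.sum_comm]
    refine Finset.sum_congr rfl fun l _ => ?_
    simp only [g, Finset.sum_mul]
  refine ⟨g, ?_, hg⟩
  -- the total degree is at most `m`
  intro k l hkl
  by_cases hk : k ≤ m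
  swap
  · apply Finset.sum_eq_zero
    intro j hj
    rw [(L j).coeff_eq_zero_of_natDegree_lt (lt_of_le_of_lt (hLd j hj) (by omega)), mul_zero]
  by_cases hl : l ≤ m
  swap
  · apply Finset.sum_eq_zero
    intro j hj
    rw [(q j).coeff_eq_zero_of_natDegree_lt (lt_of_le_of_lt (hqd j) (by omega)), zero_mul]
  -- vanishing of the homogeneous parts of degree `d > m`
  have hvan : ∀ t : ℚ, ∑ k' ∈ Finset.range (m + 1), ∑ l' ∈ Finset.range (m + 1),
      (if k' + l' = k + l then g k' l' * (t : ℝ) ^ k' else 0) = 0 := by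
    intro t
    obtain ⟨p, hp, hpt⟩ := hF 0 (x + (t : ℝ) • h)
    have hpQ : p = ∑ k' ∈ Finset.range (m + 1), ∑ l' ∈ Finset.range (m + 1),
        C (g k' l' * (t : ℝ) ^ k') * X ^ (k' + l') := by
      apply poly_eq_of_rat
      intro r
      rw [← hpt r]
      have h2 := hg r (r * t)
      have h3 : (0 : E) + (r : ℝ) • (x + (t : ℝ) • h) =
          (r : ℝ) • x + ((r * t : ℚ) : ℝ) • h := by
        rw [zero_add, smul_add, smul_smul]
        push_cast
        rfl
      rw [h3, h2]
      simp only [Polynomial.eval_finsetSum]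
      refine Finset.sum_congr rfl fun k' _ => Finset.sum_congr rfl fun l' _ => ?_
      simp only [eval_mul, eval_C, eval_pow, eval_X]
      push_cast
      ring
    have hc : p.coeff (k + l) = 0 :=
      p.coeff_eq_zero_of_natDegree_lt (lt_of_le_of_lt hp hkl)
    rw [hpQ] at hc
    simp only [finsetSum_coeff, coeff_C_mul, coeff_X_pow] at hc
    refine Eq.trans ?_ hc
    refine Finset.sum_congr rfl fun k' _ => Finset.sum_congr rfl fun l' _ => ?_
    by_cases hh : k' + l' = k + l
    · rw [if_pos hh, if_pos hh.symm, mul_one]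
    · rw [if_neg hh, if_neg (Ne.symm hh), mul_zero]
  have hzero : ∑ k' ∈ Finset.range (m + 1), ∑ l' ∈ Finset.range (m + 1),
      (if k' + l' = k + l then C (g k' l') * X ^ k' else 0) = (0 : ℝ[X]) := by
    apply poly_eq_of_rat
    intro t
    rw [eval_zero, ← hvan t]
    simp only [Polynomial.eval_finsetSum]
    refine Finset.sum_congr rfl fun k' _ => Finset.sum_congr rfl fun l' _ => ?_
    split_ifs <;> simp
  have hcoef := congrArg (fun P : ℝ[X] => P.coeff k) hzero
  simp only [finsetSum_coeff, coeff_zero] at hcoef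
  rw [Finset.sum_eq_single_of_mem k (Finset.mem_range.mpr (by omega)),
    Finset.sum_eq_single_of_mem l (Finset.mem_range.mpr (by omega))] at hcoef
  · simpa using hcoef
  · intro l' _ hne
    rw [if_neg (by omega), coeff_zero]
  · intro k' _ hne
    apply Finset.sum_eq_zero
    intro l' _
    split_ifs
    · simp [coeff_X_pow, Ne.symm hne]
    · exact coeff_zero _

/-- the top coefficient -/
theorem exists_top {m : ℕ} {F : E → ℝ} (hF : IsFunctionalOfDegree m F) :
    ∃ c : E → ℝ,
      (∀ x h : E, ∃ p : ℝ[X], p.natDegree ≤ m ∧ p.coeff m = c h ∧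
        ∀ t : ℚ, F (x + (t : ℝ) • h) = p.eval (t : ℝ)) ∧
      (∀ x h : E, ∃ p : ℝ[X], p.natDegree ≤ m ∧ p.coeff m = c h ∧
        ∀ t : ℚ, c (x + (t : ℝ) • h) = p.eval (t : ℝ)) ∧
      (∀ (r : ℚ) (h : E), c ((r : ℝ) • h) = (r : ℝ) ^ m * c h) := by
  have hF' := isFunctional_iff.mp hF
  choose p₀ hp₀d hp₀ using (fun h : E => hF' 0 h)
  have huniq : ∀ (h : E) (p : ℝ[X]), (∀ t : ℚ, F ((t : ℝ) • h) = p.eval (t : ℝ)) → p₀ h = p := by
    intro h p hp
    apply poly_eq_of_rat
    intro t
    rw [← hp₀ h t, zero_add, hp t]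
  have htop : ∀ (x h : E) (g : ℕ → ℕ → ℝ),
      (∀ s t : ℚ, F ((s : ℝ) • x + (t : ℝ) • h) =
        ∑ k ∈ Finset.range (m + 1), ∑ l ∈ Finset.range (m + 1),
          g k l * (s : ℝ) ^ l * (t : ℝ) ^ k) → (p₀ h).coeff m = g m 0 := by
    intro x h g hg
    rw [huniq h (∑ k ∈ Finset.range (m + 1), C (g k 0) * X ^ k)]
    · simp [finsetSum_coeff, coeff_X_pow]
    · intro t
      have h1 := hg 0 t
      rw [Rat.cast_zero, zero_smul, zero_add] at h1
      rw [h1, Polynomial.eval_finsetSum]
      refine Finset.sum_congr rfl fun k _ => ?_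
      rw [Finset.sum_eq_single_of_mem 0 (Finset.mem_range.mpr (by omega))]
      · simp
      · intro l _ hl
        rw [zero_pow hl, mul_zero, zero_mul]
  refine ⟨fun h => (p₀ h).coeff m, ?_, ?_, ?_⟩
  · intro x h
    obtain ⟨g, hg0, hg⟩ := exists_bipoly hF x h
    refine ⟨∑ k ∈ Finset.range (m + 1), C (∑ l ∈ Finset.range (m + 1), g k l) * X ^ k,
      ?_, ?_, ?_⟩
    · apply Polynomial.natDegree_sum_le_of_forall_le
      intro i hi
      rw [Finset.mem_range] at hi
      exact (natDegree_C_mul_X_pow_le _ _).trans (by omega)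
    · beta_reduce
      rw [htop x h g hg]
      simp only [finsetSum_coeff, coeff_C_mul, coeff_X_pow]
      rw [Finset.sum_eq_single_of_mem m (Finset.mem_range.mpr (by omega)),
        Finset.sum_eq_single_of_mem 0 (Finset.mem_range.mpr (by omega))]
      · simp
      · intro l _ hl
        exact hg0 _ _ (by omega)
      · intro k _ hk
        rw [if_neg (Ne.symm hk), mul_zero]
    · intro t
      have h1 := hg 1 t
      rw [Rat.cast_one, one_smul] at h1
      rw [h1, Polynomial.eval_finsetSum]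
      refine Finset.sum_congr rfl fun k _ => ?_
      rw [eval_mul, eval_C, eval_pow, eval_X, Finset.sum_mul]
      refine Finset.sum_congr rfl fun l _ => ?_
      rw [one_pow, mul_one]
  · intro x h
    obtain ⟨g, hg0, hg⟩ := exists_bipoly hF x h
    refine ⟨∑ k ∈ Finset.range (m + 1), C (g k (m - k)) * X ^ k, ?_, ?_, ?_⟩
    · apply Polynomial.natDegree_sum_le_of_forall_le
      intro i hi
      rw [Finset.mem_range] at hi
      exact (natDegree_C_mul_X_pow_le _ _).trans (by omega)
    · beta_reduce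
      rw [htop x h g hg]
      simp [finsetSum_coeff, coeff_X_pow]
    · intro t
      beta_reduce
      rw [huniq (x + (t : ℝ) • h) (∑ k ∈ Finset.range (m + 1), ∑ l ∈ Finset.range (m + 1),
        C (g k l * (t : ℝ) ^ k) * X ^ (k + l))]
      · simp only [finsetSum_coeff, coeff_C_mul, coeff_X_pow, Polynomial.eval_finsetSum]
        refine Finset.sum_congr rfl fun k hk => ?_
        rw [Finset.mem_range] at hk
        rw [Finset.sum_eq_single_of_mem (m - k) (Finset.mem_range.mpr (by omega))]
        · rw [if_pos (by omega)]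
          simp
        · intro l _ hl
          rw [if_neg (by omega), mul_zero]
      · intro r
        have h3 : (r : ℝ) • (x + (t : ℝ) • h) =
            (r : ℝ) • x + ((r * t : ℚ) : ℝ) • h := by
          rw [smul_add, smul_smul]
          push_cast
          rfl
        rw [h3, hg]
        simp only [Polynomial.eval_finsetSum]
        refine Finset.sum_congr rfl fun k' _ => Finset.sum_congr rfl fun l' _ => ?_
        simp only [eval_mul, eval_C, eval_pow, eval_X]
        push_cast
        ring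
  · intro r h
    beta_reduce
    rw [huniq ((r : ℝ) • h) ((p₀ h).comp (C (r : ℝ) * X))]
    · rw [comp_C_mul_X_coeff, mul_comm]
    · intro t
      have h1 := hp₀ h (t * r)
      rw [zero_add] at h1
      rw [smul_smul, ← Rat.cast_mul, h1, eval_comp, eval_mul, eval_C, eval_X, Rat.cast_mul,
        mul_comm]

/-- reduction of the degree -/
theorem degree_reduce {m : ℕ} {F c : E → ℝ}
    (h1 : ∀ x h : E, ∃ p : ℝ[X], p.natDegree ≤ m + 1 ∧ p.coeff (m + 1) = c h ∧
        ∀ t : ℚ, F (x + (t : ℝ) • h) = p.eval (t : ℝ))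
    (h2 : ∀ x h : E, ∃ p : ℝ[X], p.natDegree ≤ m + 1 ∧ p.coeff (m + 1) = c h ∧
        ∀ t : ℚ, c (x + (t : ℝ) • h) = p.eval (t : ℝ)) :
    IsFunctionalOfDegree m (fun x => F x - c x) := by
  rw [isFunctional_iff]
  intro x h
  obtain ⟨p, hp, hpc, hpt⟩ := h1 x h
  obtain ⟨q, hq, hqc, hqt⟩ := h2 x h
  refine ⟨p - q, ?_, fun t => ?_⟩
  · have h3 : (p - q).natDegree ≤ m + 1 := (natDegree_sub_le _ _).trans (max_le hp hq)
    rcases Nat.lt_or_ge (p - q).natDegree (m + 1) with h4 | h4
    · omega
    · exfalso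
      have h5 : (p - q).natDegree = m + 1 := le_antisymm h3 h4
      have h6 : (p - q).coeff (m + 1) = 0 := by rw [coeff_sub, hpc, hqc, sub_self]
      rw [← h5, coeff_natDegree, leadingCoeff_eq_zero] at h6
      rw [h6, natDegree_zero] at h5
      omega
  · rw [hpt, hqt, eval_sub]

/-- a polynomial bounded at `0, …, m` has bounded coefficients -/
theorem coeff_bound (m : ℕ) : ∃ K : ℝ, 0 < K ∧ ∀ (p : ℝ[X]) (M : ℝ), p.natDegree ≤ m →
    (∀ j ≤ m, |p.eval (j : ℝ)| ≤ M) → ∀ k, |p.coeff k| ≤ K * M := by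
  classical
  let v : ℕ → ℝ := fun j => (j : ℝ)
  have hv : Set.InjOn v (Finset.range (m + 1)) := fun i _ j _ hij => Nat.cast_injective hij
  let L : ℕ → ℝ[X] := fun j => Lagrange.basis (Finset.range (m + 1)) v j
  refine ⟨1 + ∑ k ∈ Finset.range (m + 1), ∑ j ∈ Finset.range (m + 1), |(L j).coeff k|,
    by positivity, ?_⟩
  intro p M hp hM k
  have hM0 : 0 ≤ M := (abs_nonneg _).trans (hM 0 (Nat.zero_le _))
  by_cases hk : k ≤ m
  swap
  · rw [p.coeff_eq_zero_of_natDegree_lt (by omega), abs_zero]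
    positivity
  have hp' : p.degree < (Finset.range (m + 1)).card := by
    rw [Finset.card_range]
    refine lt_of_le_of_lt degree_le_natDegree ?_
    exact_mod_cast Nat.lt_succ_of_le hp
  have hint := Lagrange.eq_interpolate hv hp'
  have h1 : p.coeff k = ∑ j ∈ Finset.range (m + 1), p.eval (j : ℝ) * (L j).coeff k := by
    conv_lhs => rw [hint]
    rw [Lagrange.interpolate_apply, finsetSum_coeff]
    refine Finset.sum_congr rfl fun j _ => ?_
    rw [coeff_C_mul]
  rw [h1]
  calc |∑ j ∈ Finset.range (m + 1), p.eval (j : ℝ) * (L j).coeff k|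
      ≤ ∑ j ∈ Finset.range (m + 1), |p.eval (j : ℝ) * (L j).coeff k| :=
        Finset.abs_sum_le_sum_abs _ _
    _ ≤ ∑ j ∈ Finset.range (m + 1), |(L j).coeff k| * M := by
        refine Finset.sum_le_sum fun j hj => ?_
        rw [abs_mul, mul_comm]
        rw [Finset.mem_range] at hj
        exact mul_le_mul_of_nonneg_left (hM j (by omega)) (abs_nonneg _)
    _ = (∑ j ∈ Finset.range (m + 1), |(L j).coeff k|) * M := by rw [Finset.sum_mul]
    _ ≤ _ := by
        refine mul_le_mul_of_nonneg_right ?_ hM0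
        have := Finset.single_le_sum (f := fun k => ∑ j ∈ Finset.range (m + 1), |(L j).coeff k|)
          (fun k _ => by positivity) (Finset.mem_range.mpr (show k < m + 1 by omega))
        linarith

end Pool.Agent.Lib.MP_f5651a_an
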